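import Mathlib

/-! One variable lemmas: a criterion for the chord inequality, subgradients, a grid lemma. -/

set_option autoImplicit false

open Set Filter Topology

namespace Pool.Agent.MP_515557_an.H63

/-- Almost midpoint convexity at a point. -/
def Mid (u : ℝ → ℝ) (s : ℝ) : Prop :=
  ∀ ε : ℝ, 0 < ε → ∀ᶠ h in 𝓝[>] (0 : ℝ), -(ε * h ^ 2) ≤ u (s + h) + u (s - h) - 2 * u s

theorem chord_of_mid {u : ℝ → ℝ} (hc : ContinuousOn u (Icc 0 1))
    (h : ∀ s ∈ Ioo (0 : ℝ) 1, Mid u s) :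
    ∀ s ∈ Icc (0 : ℝ) 1, u s ≤ (1 - s) * u 0 + s * u 1 := by
  intro s1 hs1
  by_contra hlt
  push Not at hlt
  set g := u s1 - ((1 - s1) * u 0 + s1 * u 1) with hg
  have g0 : 0 < g := by linarith
  set v : ℝ → ℝ := fun s => u s - ((1 - s) * u 0 + s * u 1) - g * (s * (1 - s)) with hv
  have vc : ContinuousOn v (Icc 0 1) := (hc.sub (by fun_prop)).sub (by fun_prop)
  obtain ⟨s0, hs0, hmax⟩ := isCompact_Icc.exists_isMaxOn ⟨0, by simp⟩ vc
  have v1 : 0 < v s1 := by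
    have : s1 * (1 - s1) ≤ 1 / 4 := by nlinarith [sq_nonneg (s1 - 1 / 2)]
    have e : v s1 = g - g * (s1 * (1 - s1)) := by simp only [hv, hg]
    rw [e]
    nlinarith
  have v2 : 0 < v s0 := v1.trans_le (hmax hs1)
  have n0 : s0 ≠ 0 := by
    rintro rfl
    simp [hv] at v2
  have n1 : s0 ≠ 1 := by
    rintro rfl
    simp [hv] at v2
  have p0 : 0 < s0 := lt_of_le_of_ne hs0.1 n0.symm
  have p1 : s0 < 1 := lt_of_le_of_ne hs0.2 n1
  have e1 := h s0 ⟨p0, p1⟩ g g0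
  have e2 : ∀ᶠ r in 𝓝[>] (0 : ℝ), r ∈ Ioo 0 (min s0 (1 - s0)) :=
    Ioo_mem_nhdsGT (lt_min p0 (by linarith))
  obtain ⟨r, hr1, hr2⟩ := (e1.and e2).exists
  have r0 : 0 < r := hr2.1
  have r1 : r < s0 := hr2.2.trans_le (min_le_left _ _)
  have r2 : r < 1 - s0 := hr2.2.trans_le (min_le_right _ _)
  have m1 : v (s0 + r) ≤ v s0 := hmax (show s0 + r ∈ Icc (0 : ℝ) 1 from ⟨by linarith, by linarith⟩)
  have m2 : v (s0 - r) ≤ v s0 := hmax (show s0 - r ∈ Icc (0 : ℝ) 1 from ⟨by linarith, by linarith⟩)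
  simp only [hv] at m1 m2
  have : 0 < g * r ^ 2 := by positivity
  nlinarith

theorem mid_of_deriv {φ φ' : ℝ → ℝ} {s c : ℝ} (h1 : ∀ᶠ r in 𝓝 s, HasDerivAt φ (φ' r) r)
    (h2 : HasDerivAt φ' c s) (hc : 0 ≤ c) : Mid φ s := by
  intro ε hε
  have k1 : HasDerivAt (fun h : ℝ => φ' (s + h) - φ' (s - h) + 2 * ε * h)
      (c * 1 - c * (-1) + 2 * ε * 1) 0 := by
    have a1 : HasDerivAt (fun h : ℝ => s + h) 1 0 := (hasDerivAt_id 0).const_add s
    have a2 : HasDerivAt (fun h : ℝ => s - h) (-1) 0 := (hasDerivAt_id 0).const_sub s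
    have b1 : HasDerivAt φ' c (s + 0) := by simpa using h2
    have b2 : HasDerivAt φ' c (s - 0) := by simpa using h2
    exact ((b1.comp 0 a1).sub (b2.comp 0 a2)).add ((hasDerivAt_id 0).const_mul (2 * ε))
  have k2 := k1.tendsto_slope_zero_right.eventually
    (lt_mem_nhds (show (0 : ℝ) < c * 1 - c * (-1) + 2 * ε * 1 by linarith))
  obtain ⟨δ1, hδ1, k3⟩ := (nhdsGT_basis (0 : ℝ)).eventually_iff.1 k2
  obtain ⟨δ2, hδ2, k4⟩ := Metric.eventually_nhds_iff.1 h1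
  filter_upwards [Ioo_mem_nhdsGT (lt_min hδ1 hδ2)] with h hh
  have h0 : 0 < h := hh.1
  have hh1 : h < δ1 := hh.2.trans_le (min_le_left _ _)
  have hh2 : h < δ2 := hh.2.trans_le (min_le_right _ _)
  have d : ∀ r ∈ Icc 0 h, HasDerivAt (fun r : ℝ => φ (s + r) + φ (s - r) + ε * r ^ 2)
      (φ' (s + r) * 1 + φ' (s - r) * (-1) + ε * (2 * r)) r := by
    intro r hr
    have a1 : HasDerivAt (fun h : ℝ => s + h) 1 r := (hasDerivAt_id r).const_add s
    have a2 : HasDerivAt (fun h : ℝ => s - h) (-1) r := (hasDerivAt_id r).const_sub s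
    have b1 := k4 (y := s + r) (by
      rw [Real.dist_eq, add_sub_cancel_left, abs_of_nonneg hr.1]; linarith [hr.2])
    have b2 := k4 (y := s - r) (by
      rw [Real.dist_eq, sub_sub_cancel_left, abs_neg, abs_of_nonneg hr.1]; linarith [hr.2])
    have a3 : HasDerivAt (fun r : ℝ => r ^ 2) (2 * r) r := by simpa using hasDerivAt_pow 2 r
    exact ((b1.comp r a1).add (b2.comp r a2)).add (a3.const_mul ε)
  obtain ⟨r, hr, e⟩ := exists_hasDerivAt_eq_slope _ _ h0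
    (fun r hr => (d r hr).continuousAt.continuousWithinAt) (fun r hr => d r (Ioo_subset_Icc_self hr))
  have k5 := k3 (show r ∈ Ioo 0 δ1 from ⟨hr.1, hr.2.trans hh1⟩)
  simp only [zero_add, add_zero, sub_zero, sub_self, mul_zero, smul_eq_mul] at k5 e
  have k6 : 0 < φ' (s + r) - φ' (s - r) + 2 * ε * r :=
    (mul_pos_iff_of_pos_left (inv_pos.2 hr.1)).1 k5
  rw [eq_div_iff h0.ne'] at e
  nlinarith [mul_pos k6 h0]

theorem Mid.mono {u φ : ℝ → ℝ} {s : ℝ} (h : Mid φ s) (e : φ s = u s)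
    (hle : ∀ᶠ r in 𝓝 s, φ r ≤ u r) : Mid u s := by
  intro ε hε
  have a1 : Tendsto (fun h : ℝ => s + h) (𝓝[>] 0) (𝓝 s) :=
    tendsto_nhdsWithin_of_tendsto_nhds
      ((by fun_prop : Continuous fun h : ℝ => s + h).tendsto' 0 s (by simp))
  have a2 : Tendsto (fun h : ℝ => s - h) (𝓝[>] 0) (𝓝 s) :=
    tendsto_nhdsWithin_of_tendsto_nhds
      ((by fun_prop : Continuous fun h : ℝ => s - h).tendsto' 0 s (by simp))
  filter_upwards [h ε hε, a1.eventually hle, a2.eventually hle] with r h1 h2 h3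
  linarith

theorem Mid.of_le {u : ℝ → ℝ} {s : ℝ} (h : ∀ r, 2 * u s ≤ u (s + r) + u (s - r)) : Mid u s := by
  intro ε hε
  refine Eventually.of_forall fun r => ?_
  have : 0 ≤ ε * r ^ 2 := by positivity
  linarith [h r]

theorem deriv_le_of_le {φ : ℝ → ℝ} {c k : ℝ} (h : HasDerivAt φ c 0)
    (hle : ∀ᶠ s in 𝓝[>] (0 : ℝ), φ s ≤ φ 0 + k * s) : c ≤ k := by
  refine le_of_tendsto h.tendsto_slope_zero_right ?_
  filter_upwards [hle, self_mem_nhdsWithin] with s h1 h2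
  have h3 : (0 : ℝ) < s := h2
  rw [zero_add, smul_eq_mul, inv_mul_le_iff₀ h3]
  linarith

theorem exists_sub {w : ℝ → ℝ} (hw : ConvexOn ℝ univ w) (t : ℝ) :
    ∃ σ : ℝ, ∀ s, w t + σ * (s - t) ≤ w s := by
  refine ⟨derivWithin w (Ioi t) t, fun s => ?_⟩
  rcases lt_trichotomy s t with h | rfl | h
  · have h1 := hw.slope_le_leftDeriv_of_mem_interior (x := s) (y := t) (mem_univ _) (by simp) h
    have h2 := hw.leftDeriv_le_rightDeriv_of_mem_interior (x := t) (by simp)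
    have h3 := h1.trans h2
    rw [slope_def_field, div_le_iff₀ (by linarith)] at h3
    linarith
  · simp
  · have h1 := hw.rightDeriv_le_slope_of_mem_interior (x := t) (y := s) (by simp) (mem_univ _) h
    rw [slope_def_field, le_div_iff₀ (by linarith)] at h1
    linarith

theorem grid {ψ : ℝ → ℝ} {b0 b1 δ : ℝ} (hδ : 0 < δ)
    (h1 : ∀ b ∈ uIcc b0 b1, ∀ b' ∈ uIcc b0 b1, |b' - b| < δ → 2 * ψ ((b + b') / 2) ≤ ψ b + ψ b')
    (h2 : ∀ b ∈ uIcc b0 b1, |b - b0| < δ → ψ b0 ≤ ψ b) : ψ b0 ≤ ψ b1 := by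
  obtain ⟨N, hN⟩ := exists_nat_gt (2 * |b1 - b0| / δ)
  have N0 : (0 : ℝ) < N := lt_of_le_of_lt (by positivity) hN
  set h := (b1 - b0) / N with hh
  have hδ2 : 2 * |h| < δ := by
    rw [hh, abs_div, abs_of_pos N0]
    rw [div_lt_iff₀ hδ] at hN
    rw [← mul_div_assoc, div_lt_iff₀ N0]
    linarith
  have mem : ∀ j : ℕ, j ≤ N → b0 + j * h ∈ uIcc b0 b1 := by
    intro j hj
    have hj' : (j : ℝ) ≤ N := by exact_mod_cast hj
    have j0 : (0 : ℝ) ≤ j := Nat.cast_nonneg j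
    have e : b0 + j * h = b0 + (j / N) * (b1 - b0) := by rw [hh]; ring
    have q0 : (0 : ℝ) ≤ j / N := by positivity
    have q1 : (j : ℝ) / N ≤ 1 := by rw [div_le_one N0]; exact hj'
    rw [e, mem_uIcc]
    rcases le_total b0 b1 with hb | hb
    · left; constructor <;> nlinarith
    · right; constructor <;> nlinarith
  have step : ∀ j : ℕ, j + 1 ≤ N → ψ (b0 + j * h) ≤ ψ (b0 + (j + 1 : ℕ) * h) ∧
      ψ b0 ≤ ψ (b0 + (j + 1 : ℕ) * h) := by
    intro j
    induction j with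
    | zero =>
      intro hj
      have := h2 _ (mem 1 hj) (by simp; linarith [abs_nonneg h])
      simpa using this
    | succ j ih =>
      intro hj
      obtain ⟨i1, i2⟩ := ih (by omega)
      have := h1 _ (mem j (by omega)) _ (mem (j + 1 + 1) hj) (by
        have e : b0 + ((j + 1 + 1 : ℕ) : ℝ) * h - (b0 + j * h) = 2 * h := by push_cast; ring
        rw [e, abs_mul, abs_two]; exact hδ2)
      have e : (b0 + j * h + (b0 + ((j + 1 + 1 : ℕ) : ℝ) * h)) / 2 = b0 + (j + 1 : ℕ) * h := by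
        push_cast; ring
      rw [e] at this
      constructor <;> linarith
  obtain ⟨n, rfl⟩ : ∃ n, N = n + 1 := ⟨N - 1, by
    have : 0 < N := by exact_mod_cast N0
    omega⟩
  have := (step n le_rfl).2
  have e : b0 + ((n + 1 : ℕ) : ℝ) * h = b1 := by rw [hh]; field_simp; ring
  rwa [e] at this

theorem const_of_sublinear {u : ℝ → ℝ} (hu : ConvexOn ℝ univ u)
    (h : ∀ ε : ℝ, 0 < ε → ∃ S, ∀ s, S ≤ |s| → u s ≤ ε * |s|) (s : ℝ) : u s = u 0 := by
  have key : ∀ t, ∀ σ, (∀ s, u t + σ * (s - t) ≤ u s) → σ = 0 := by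
    intro t σ hσ
    by_contra hne
    have p : 0 < |σ| := abs_pos.2 hne
    obtain ⟨S, hS⟩ := h (|σ| / 2) (by positivity)
    set r := max S (2 * (|u t - σ * t| + 1) / |σ|) with hr
    have r1 : 2 * (|u t - σ * t| + 1) ≤ r * |σ| := by
      rw [← div_le_iff₀ p]; exact le_max_right _ _
    have r0 : 0 ≤ r := le_trans (by positivity) (le_max_right _ _)
    have q := neg_abs_le (u t - σ * t)
    rcases lt_or_gt_of_ne hne with hn | hp
    · have a1 := hS (-r) (by rw [abs_neg, abs_of_nonneg r0]; exact le_max_left _ _)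
      have a2 := hσ (-r)
      rw [abs_neg, abs_of_nonneg r0] at a1
      rw [abs_of_neg hn] at a1 r1
      nlinarith
    · have a1 := hS r (by rw [abs_of_nonneg r0]; exact le_max_left _ _)
      have a2 := hσ r
      rw [abs_of_nonneg r0] at a1
      rw [abs_of_pos hp] at a1 r1
      nlinarith
  obtain ⟨σ, hσ⟩ := exists_sub hu s
  obtain ⟨τ, hτ⟩ := exists_sub hu 0
  have a1 := hσ 0
  have a2 := hτ s
  rw [key s σ hσ] at a1
  rw [key 0 τ hτ] at a2
  linarith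

end Pool.Agent.MP_515557_an.H63
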