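import Pool.Agent.MP_515557_an.H63.Bad
import Pool.Agent.MP_515557_an.H11.MMain

/-! Homogeneous isotropic rank-one convex functions are quasiconvex. -/

set_option autoImplicit false

open MeasureTheory Set Filter Topology

namespace Pool.Agent.MP_515557_an.H63

open H11.Mono

theorem Hyp.touch_base (hB : SBMS) {p : ℝ} {f : ℝ → ℝ → ℝ} (h : Hyp p f) (hp : 1 ≤ p) {t : ℝ}
    (ht : t ∈ Ioo (-1 : ℝ) 1) : Touch f ((1 + t) / 2) ((1 - t) / 2) := by
  obtain ⟨σ, hσ⟩ := exists_sub h.convexOn_om t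
  set α := om f t - σ * t with hα
  have hs : ∀ s ∈ Icc (-1 : ℝ) 1, α + σ * s ≤ om f s := fun s _ => by linarith [hσ s]
  have he : α + σ * t = om f t := by rw [hα]; ring
  have hs' : ∀ s ∈ Icc (-1 : ℝ) 1, α + -σ * s ≤ om (fun a b => f b a) s := fun s hs1 => by
    have := hs (-s) ⟨by linarith [hs1.2], by linarith [hs1.1]⟩
    rw [← om_swap, neg_neg] at this
    linarith
  have he' : α + -σ * -t = om (fun a b => f b a) (-t) := by rw [om_swap, ← he]; ring
  have ht' : -t ∈ Ioo (-1 : ℝ) 1 := ⟨by linarith [ht.2], by linarith [ht.1]⟩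
  rcases lt_or_ge (p * α - (p - 2) * σ) 0 with h1 | h1
  · have hp' : 1 < p := by
      refine lt_of_le_of_ne hp fun e => ?_
      have := h.T_nonneg hp ht.1 ht.2.le (by rw [← e]; linarith [ht.2]) hs he
      linarith
    obtain ⟨t1, γ, hc, h2⟩ := h.exists_cut hp' ht hs he h1
    exact hc.touch hB h2 ht.2 hs he h1
  rcases lt_or_ge (p * α - (p - 2) * -σ) 0 with h2 | h2
  · have hp' : 1 < p := by
      refine lt_of_le_of_ne hp fun e => ?_
      have := h.swap.T_nonneg hp ht'.1 ht'.2.le (by rw [← e]; linarith [ht'.2]) hs' he'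
      linarith
    obtain ⟨t1, γ, hc, h3⟩ := h.swap.exists_cut hp' ht' hs' he' h2
    obtain ⟨V, v1, v2, v3⟩ := hc.touch hB h3 ht'.2 hs' he' h2
    refine ⟨fun a b => V b a, v1.swap, fun a b ha hb => v2 b a hb ha, ?_⟩
    simpa only [sub_neg_eq_add, ← sub_eq_add_neg] using v3
  have h3 : |σ * (p - 2)| ≤ α * p := abs_le.2 ⟨by linarith, by linarith⟩
  refine ⟨Lam p α σ, ?_, fun a b ha hb => h.Lam_le hs ha.le hb.le (add_pos ha hb), ?_⟩
  · rcases hp.lt_or_eq with hp' | rfl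
    · exact g2_burk hB hp' h3
    · refine (g2_lin hB (c := α) (d := σ) (abs_le.2 ⟨by linarith, by linarith⟩)).congr fun A => ?_
      simp [Lam]
  · have e3 : (1 + t) / 2 + (1 - t) / 2 = 1 := by ring
    have e4 : (1 + t) / 2 - (1 - t) / 2 = t := by ring
    rw [Lam_eq p α σ (by linarith), e3, e4, Real.one_rpow, div_one, one_mul, he,
      om_eq f ht.1.le ht.2.le]

theorem Hyp.touch (hB : SBMS) {p : ℝ} {f : ℝ → ℝ → ℝ} (h : Hyp p f) (hp : 1 ≤ p) {a b : ℝ}
    (ha : 0 < a) (hb : 0 < b) : Touch f a b := by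
  have hx : 0 < a + b := add_pos ha hb
  obtain ⟨V, v1, v2, v3⟩ := h.touch_base hB hp (ratio_mem' ha hb)
  have e1 : (1 + (a - b) / (a + b)) / 2 = (a + b)⁻¹ * a := by field_simp; ring
  have e2 : (1 - (a - b) / (a + b)) / 2 = (a + b)⁻¹ * b := by field_simp; ring
  have X0 : 0 < (a + b) ^ p := Real.rpow_pos_of_pos hx _
  have e3 : ∀ u v, (a + b) ^ p * f ((a + b)⁻¹ * u) ((a + b)⁻¹ * v) = f u v := fun u v => by
    rw [← h.hom _ _ _ hx, mul_inv_cancel_left₀ hx.ne', mul_inv_cancel_left₀ hx.ne']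
  refine ⟨fun u v => (a + b) ^ p * V ((a + b)⁻¹ * u) ((a + b)⁻¹ * v), ?_, fun u v hu hv => ?_, ?_⟩
  · refine ((GQ.scale v1 (a + b)⁻¹).smul X0.le).congr fun A => ?_
    simp only [cz_smul, cw_smul, norm_smul, Real.norm_eq_abs, abs_of_pos (inv_pos.2 hx)]
  · rw [← e3 u v]
    exact mul_le_mul_of_nonneg_left (v2 _ _ (by positivity) (by positivity)) X0.le
  · rw [e1, e2] at v3
    beta_reduce
    rw [v3, e3]

theorem dense_le {U V : (ℂ →L[ℝ] ℂ) → ℝ} (hU : Continuous U) (hV : Continuous V)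
    (h : ∀ A, cz A ≠ 0 → cw A ≠ 0 → U A ≤ V A) (A : ℂ →L[ℝ] ℂ) : U A ≤ V A := by
  set T : ℂ →L[ℝ] ℂ := toCLM !![2, 0; 0, 0] with hT
  have add1 : ∀ s : ℝ, cz (A + s • T) = cz A + s := fun s => by
    have : cz (A + s • T) = cz A + cz (s • T) := by simp only [cz, add_apply]; ring
    rw [this, cz_smul, hT, cz_toCLM]
    apply Complex.ext <;> simp
  have add2 : ∀ s : ℝ, cw (A + s • T) = cw A + s := fun s => by
    have : cw (A + s • T) = cw A + cw (s • T) := by simp only [cw, add_apply]; ring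
    rw [this, cw_smul, hT, cw_toCLM]
    apply Complex.ext <;> simp
  have ev : ∀ z : ℂ, ∀ᶠ s : ℝ in 𝓝[>] 0, z + s ≠ 0 := fun z => by
    by_cases hz : z = 0
    · filter_upwards [self_mem_nhdsWithin] with s hs
      have : (0 : ℝ) < s := hs
      simp [hz, this.ne']
    · exact nhdsWithin_le_nhds
        ((by fun_prop : Continuous fun s : ℝ => z + s).continuousAt.eventually_ne
          (by simpa using hz))
  have tA : Tendsto (fun s : ℝ => A + s • T) (𝓝[>] 0) (𝓝 A) :=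
    tendsto_nhdsWithin_of_tendsto_nhds
      ((by fun_prop : Continuous fun s : ℝ => A + s • T).tendsto' 0 A
        (by ext; simp))
  refine le_of_tendsto_of_tendsto ((hU.tendsto A).comp tA) ((hV.tendsto A).comp tA) ?_
  filter_upwards [ev (cz A), ev (cw A)] with s h1 h2
  exact h _ (by rwa [add1]) (by rwa [add2])

theorem Hyp.zero {p : ℝ} {f : ℝ → ℝ → ℝ} (h : Hyp p f) (hp : 1 ≤ p) : f 0 0 = 0 := by
  have h1 := h.hom 2 0 0 two_pos
  have h2 : (1 : ℝ) < 2 ^ p := Real.one_lt_rpow one_lt_two (by linarith)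
  rw [mul_zero] at h1
  have h3 : (2 ^ p - 1) * f 0 0 = 0 := by linarith
  exact (mul_eq_zero.1 h3).resolve_left (by linarith)

theorem Hyp.bound {p : ℝ} {f : ℝ → ℝ → ℝ} (h : Hyp p f) : ∃ K, 0 ≤ K ∧ ∀ a b, 0 ≤ a → 0 ≤ b →
    0 < a + b → |f a b| ≤ K * (a + b) ^ p := by
  obtain ⟨K, hK⟩ := (isCompact_Icc (a := (-1 : ℝ)) (b := 1)).exists_bound_of_continuousOn
    h.continuous_om.continuousOn
  refine ⟨K, (norm_nonneg _).trans (hK 0 (by norm_num)), fun a b ha hb hx => ?_⟩
  have X0 : 0 < (a + b) ^ p := Real.rpow_pos_of_pos hx _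
  rw [h.eq_om ha hb hx, abs_mul, abs_of_pos X0, mul_comm]
  exact mul_le_mul_of_nonneg_right (hK _ (ratio_mem ha hb hx)) X0.le

theorem Hyp.continuous {p : ℝ} {f : ℝ → ℝ → ℝ} (h : Hyp p f) (hp : 1 ≤ p) :
    Continuous fun A => f ‖cz A‖ ‖cw A‖ := by
  have c1 := continuous_cz.norm
  have c2 := continuous_cw.norm
  have cr := (Real.continuous_rpow_const (q := p) (by linarith)).comp (c1.add c2)
  refine continuous_iff_continuousAt.2 fun A => ?_
  rcases (add_nonneg (norm_nonneg (cz A)) (norm_nonneg (cw A))).lt_or_eq with hx | hx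
  · have e := (c1.add c2).continuousAt.eventually (lt_mem_nhds hx)
    refine ContinuousAt.congr (f := fun A => (‖cz A‖ + ‖cw A‖) ^ p
      * om f ((‖cz A‖ - ‖cw A‖) / (‖cz A‖ + ‖cw A‖))) (cr.continuousAt.mul
        (h.continuous_om.continuousAt.comp
          ((c1.sub c2).continuousAt.div (c1.add c2).continuousAt hx.ne'))) ?_
    filter_upwards [e] with B hB
    exact (h.eq_om (norm_nonneg _) (norm_nonneg _) hB).symm
  · obtain ⟨K, K0, hK⟩ := h.bound
    have z : ∀ B, ‖cz B‖ + ‖cw B‖ = 0 → f ‖cz B‖ ‖cw B‖ = 0 := fun B hB => by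
      have a1 : ‖cz B‖ = 0 := by linarith [norm_nonneg (cz B), norm_nonneg (cw B)]
      have a2 : ‖cw B‖ = 0 := by linarith
      rw [a1, a2, h.zero hp]
    rw [ContinuousAt, z A hx.symm]
    refine squeeze_zero_norm (a := fun B => K * (‖cz B‖ + ‖cw B‖) ^ p) (fun B => ?_) ?_
    · rcases (add_nonneg (norm_nonneg (cz B)) (norm_nonneg (cw B))).lt_or_eq with hB | hB
      · exact hK _ _ (norm_nonneg _) (norm_nonneg _) hB
      · rw [z B hB.symm, norm_zero]; positivity
    · refine (continuous_const.mul cr).tendsto' A 0 ?_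
      simp only [Function.comp_apply, Pi.add_apply, Pi.mul_apply, ← hx]
      rw [Real.zero_rpow (by linarith), mul_zero]

theorem Hyp.g2 (hB : SBMS) {p : ℝ} {f : ℝ → ℝ → ℝ} (h : Hyp p f) (hp : 1 ≤ p) : G2 f := by
  have hW := h.continuous hp
  refine ⟨hW, fun A u hu hc => ?_⟩
  have h1 : Continuous (fderiv ℝ u) := hu.continuous_fderiv (by norm_num)
  have hS : IsCompact (tsupport (fderiv ℝ u)) := hc.fderiv ℝ
  have hI : Continuous fun A : ℂ →L[ℝ] ℂ => ∫ x, (f ‖cz (A + fderiv ℝ u x)‖ ‖cw (A + fderiv ℝ u x)‖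
      - f ‖cz A‖ ‖cw A‖) := by
    refine (continuous_parametric_integral_of_continuous (μ := volume)
      (f := fun (A : ℂ →L[ℝ] ℂ) (x : ℂ) => f ‖cz (A + fderiv ℝ u x)‖ ‖cw (A + fderiv ℝ u x)‖
        - f ‖cz A‖ ‖cw A‖) ((hW.comp (continuous_fst.add (h1.comp continuous_snd))).sub
          (hW.comp continuous_fst)) hS).congr fun A => ?_
    refine setIntegral_eq_integral_of_forall_compl_eq_zero fun x hx => ?_
    simp [image_eq_zero_of_notMem_tsupport hx]
  refine dense_le continuous_const hI (fun A h2 h3 => ?_) A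
  obtain ⟨V, v1, v2, v3⟩ := h.touch hB hp (norm_pos_iff.2 h2) (norm_pos_iff.2 h3)
  have v4 := dense_le v1.1 hW fun B b1 b2 => v2 _ _ (norm_pos_iff.2 b1) (norm_pos_iff.2 b2)
  refine (v1.2 A u hu hc).trans (integral_mono (integrable_test v1.1 A hu hc)
    (integrable_test hW A hu hc) fun x => ?_)
  have := v4 (A + fderiv ℝ u x)
  beta_reduce
  linarith

/-- In degree below one the function is constant. -/
theorem Hyp.const {p : ℝ} {f : ℝ → ℝ → ℝ} (h : Hyp p f) (hp : p < 1) {a b : ℝ} (ha : 0 ≤ a)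
    (hb : 0 ≤ b) : f a b = f 0 0 := by
  obtain ⟨K, K0, hK⟩ := h.bound
  have key : ∀ x y c s : ℝ, |c| = 1 → f |x + s * c| |y + s| = f |x| |y| := by
    intro x y c s hc
    have hl := h.line (x : ℝ) (y : ℝ) (c : ℝ) 1 (by simpa using hc)
    have e : ∀ s : ℝ, f ‖((x : ℝ) : ℂ) + s * (c : ℝ)‖ ‖((y : ℝ) : ℂ) + s * 1‖
        = f |x + s * c| |y + s| := fun s => by
      rw [← Real.norm_eq_abs, ← Real.norm_eq_abs, ← Complex.norm_real, ← Complex.norm_real]
      push_cast
      rw [mul_one]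
    simp only [e] at hl
    have := const_of_sublinear hl (fun ε hε => ?_) s
    · simpa using this
    have t1 : Tendsto (fun r : ℝ => K * 3 * r ^ (p - 1)) atTop (𝓝 0) := by
      have := (tendsto_rpow_neg_atTop (y := 1 - p) (by linarith)).const_mul (K * 3)
      simpa using this
    obtain ⟨S, hS⟩ := eventually_atTop.1 (t1.eventually (gt_mem_nhds hε))
    refine ⟨max (max S 0 + |x| + |y|) (|x| + |y| + 1), fun r hr => ?_⟩
    have r1 : max S 0 + |x| + |y| ≤ |r| := (le_max_left _ _).trans hr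
    have r2 : |x| + |y| + 1 ≤ |r| := (le_max_right _ _).trans hr
    have a1 : |x + r * c| ≤ |x| + |r| := by
      refine (abs_add_le _ _).trans ?_
      rw [abs_mul, hc, mul_one]
    have a2 : |y + r| ≤ |y| + |r| := abs_add_le _ _
    have a3 : |r| - |y| ≤ |y + r| := by
      have := abs_sub_abs_le_abs_sub r (-y)
      rwa [abs_neg, sub_neg_eq_add, add_comm] at this
    have a4 := abs_nonneg (x + r * c)
    have a5 := abs_nonneg x
    have a6 := abs_nonneg y
    have X0 : 0 < |x + r * c| + |y + r| := by linarith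
    have b1 := hK _ _ a4 (abs_nonneg _) X0
    have b2 := hS (|x + r * c| + |y + r|) (by linarith [le_max_left S 0])
    have b3 : 0 < (|x + r * c| + |y + r|) ^ (p - 1) := Real.rpow_pos_of_pos X0 _
    rw [pow_aux X0 p] at b1
    have b4 : K * ((|x + r * c| + |y + r|) ^ (p - 1) * (|x + r * c| + |y + r|))
        ≤ K * ((|x + r * c| + |y + r|) ^ (p - 1) * (3 * |r|)) :=
      mul_le_mul_of_nonneg_left (mul_le_mul_of_nonneg_left (by linarith) b3.le) K0
    have b5 := mul_le_mul_of_nonneg_right b2.le (abs_nonneg r)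
    linarith [le_abs_self (f |x + r * c| |y + r|)]
  have k1 := key ((a + b) / 2) ((a + b) / 2) (-1) ((b - a) / 2) (by simp)
  have k2 := key 0 0 1 ((a + b) / 2) (by simp)
  have e1 : (a + b) / 2 + (b - a) / 2 * -1 = a := by ring
  have e2 : (a + b) / 2 + (b - a) / 2 = b := by ring
  rw [e1, e2, abs_of_nonneg ha, abs_of_nonneg hb] at k1
  simp only [zero_add, mul_one, abs_zero] at k2
  rw [k1, k2]

theorem Hyp.g2_all (hB : SBMS) {p : ℝ} {f : ℝ → ℝ → ℝ} (h : Hyp p f) : G2 f := by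
  rcases lt_or_ge p 1 with hp | hp
  · exact (GQ.const (f 0 0)).congr fun A => (h.const hp (norm_nonneg _) (norm_nonneg _)).symm
  · exact h.g2 hB hp

/-- The matrix with given conformal and anticonformal parts. -/
def mat (z w : ℂ) : Matrix (Fin 2) (Fin 2) ℝ :=
  !![z.re + w.re, w.im - z.im; z.im + w.im, z.re - w.re]

theorem cz_mat (z w : ℂ) : cz (toCLM (mat z w)) = z := by
  rw [cz_toCLM]; apply Complex.ext <;> simp [mat]
  ring

theorem cw_mat (z w : ℂ) : cw (toCLM (mat z w)) = w := by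
  rw [cw_toCLM]; apply Complex.ext <;> simp [mat]
  ring

theorem rot_mem (θ : ℝ) : (!![Real.cos θ, -Real.sin θ; Real.sin θ, Real.cos θ] :
    Matrix (Fin 2) (Fin 2) ℝ) ∈ Matrix.specialOrthogonalGroup (Fin 2) ℝ := by
  have h := Real.cos_sq_add_sin_sq θ
  rw [Matrix.mem_specialOrthogonalGroup_iff, Matrix.mem_orthogonalGroup_iff]
  constructor
  · ext i j
    fin_cases i <;> fin_cases j <;> simp [Matrix.mul_apply, Fin.sum_univ_two] <;> linarith
  · rw [Matrix.det_fin_two_of]; linarith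

theorem polar (F : Matrix (Fin 2) (Fin 2) ℝ) : ∃ θ φ : ℝ,
    F = !![Real.cos θ, -Real.sin θ; Real.sin θ, Real.cos θ]
      * !![‖cz (toCLM F)‖ + ‖cw (toCLM F)‖, 0; 0, ‖cz (toCLM F)‖ - ‖cw (toCLM F)‖]
      * !![Real.cos φ, -Real.sin φ; Real.sin φ, Real.cos φ] := by
  set Z := cz (toCLM F) with hZ
  set U := cw (toCLM F) with hU
  have h1 : ‖Z‖ * Real.cos Z.arg = (F 0 0 + F 1 1) / 2 := by
    rw [Complex.norm_mul_cos_arg, hZ, cz_toCLM]
  have h2 : ‖Z‖ * Real.sin Z.arg = (F 1 0 - F 0 1) / 2 := by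
    rw [Complex.norm_mul_sin_arg, hZ, cz_toCLM]
  have h3 : ‖U‖ * Real.cos U.arg = (F 0 0 - F 1 1) / 2 := by
    rw [Complex.norm_mul_cos_arg, hU, cw_toCLM]
  have h4 : ‖U‖ * Real.sin U.arg = (F 1 0 + F 0 1) / 2 := by
    rw [Complex.norm_mul_sin_arg, hU, cw_toCLM]
  set a := (Z.arg + U.arg) / 2 with ha
  set b := (Z.arg - U.arg) / 2 with hb
  have e1 : Z.arg = a + b := by rw [ha, hb]; ring
  have e2 : U.arg = a - b := by rw [ha, hb]; ring
  refine ⟨a, b, ?_⟩
  rw [e1] at h1 h2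
  rw [e2] at h3 h4
  rw [Real.cos_add] at h1
  rw [Real.sin_add] at h2
  rw [Real.cos_sub] at h3
  rw [Real.sin_sub] at h4
  ext i j
  fin_cases i <;> fin_cases j <;> simp [Matrix.mul_apply, Fin.sum_univ_two]
  · linear_combination (-1) * h1 + (-1) * h3
  · linear_combination h2 + (-1) * h4
  · linear_combination (-1) * h2 + (-1) * h4
  · linear_combination (-1) * h1 + h3

theorem rank_mat {u v : ℂ} (e : ‖u‖ = ‖v‖) (hu : u ≠ 0) : (mat u v).rank = 1 := by
  obtain ⟨θ, φ, h⟩ := polar (mat u v)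
  rw [cz_mat, cw_mat, ← e, sub_self] at h
  have k : ∀ θ : ℝ, IsUnit (!![Real.cos θ, -Real.sin θ; Real.sin θ, Real.cos θ] :
      Matrix (Fin 2) (Fin 2) ℝ).det := fun θ => by
    rw [(Matrix.mem_specialOrthogonalGroup_iff.1 (rot_mem θ)).2]; exact isUnit_one
  rw [h, Matrix.rank_mul_eq_left_of_isUnit_det _ _ (k φ),
    Matrix.rank_mul_eq_right_of_isUnit_det _ _ (k θ)]
  have := norm_pos_iff.2 hu
  exact rank_E _ (by linarith)

theorem hom_main (p : ℝ) (W : Matrix (Fin 2) (Fin 2) ℝ → ℝ)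
    (hom : ∀ t : ℝ, 0 < t → ∀ F, W (t • F) = t ^ p * W F)
    (hiso : ∀ R ∈ Matrix.specialOrthogonalGroup (Fin 2) ℝ,
      ∀ S ∈ Matrix.specialOrthogonalGroup (Fin 2) ℝ, ∀ F, W (R * F * S) = W F)
    (hrc : RCm W) : QCm W := by
  set f : ℝ → ℝ → ℝ := fun a b => W !![a + b, 0; 0, a - b] with hf
  have e : ∀ F, W F = f ‖cz (toCLM F)‖ ‖cw (toCLM F)‖ := fun F => by
    obtain ⟨θ, φ, h⟩ := polar F
    conv_lhs => rw [h]
    exact hiso _ (rot_mem θ) _ (rot_mem φ) _
  have h : Hyp p f := by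
    refine ⟨fun l a b hl => ?_, fun z w u v huv => ?_⟩
    · simp only [hf]
      rw [← hom l hl]
      congr 1
      ext i j
      fin_cases i <;> fin_cases j <;> simp <;> ring
    · have e1 : ∀ s : ℝ, f ‖z + s * u‖ ‖w + s * v‖ = W (mat (z + s * u) (w + s * v)) := fun s => by
        rw [e, cz_mat, cw_mat]
      simp only [e1]
      by_cases hu : u = 0
      · have hv : v = 0 := by rw [hu, norm_zero] at huv; exact norm_eq_zero.1 huv.symm
        simpa [hu, hv] using convexOn_const _ convex_univ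
      refine convexOn_iff_pairwise_pos.2 ⟨convex_univ, fun x _ x' _ hne a b _ hb hab => ?_⟩
      have h1 := hrc (mat (z + x * u) (w + x * v)) (mat ((x' - x : ℝ) * u) ((x' - x : ℝ) * v))
        (rank_mat (by rw [norm_mul, norm_mul, huv]) (mul_ne_zero
          (by exact_mod_cast sub_ne_zero.2 hne.symm) hu)) b hb.le (by linarith)
      have e2 : mat (z + x * u) (w + x * v) + mat ((x' - x : ℝ) * u) ((x' - x : ℝ) * v)
          = mat (z + x' * u) (w + x' * v) := by
        ext i j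
        fin_cases i <;> fin_cases j <;> simp [mat] <;> ring
      have e3 : a = 1 - b := by linarith
      have e4 : (1 - b) • mat (z + x * u) (w + x * v) + b • mat (z + x' * u) (w + x' * v)
          = mat (z + ((1 - b) • x + b • x' : ℝ) * u) (w + ((1 - b) • x + b • x' : ℝ) * v) := by
        ext i j
        fin_cases i <;> fin_cases j <;> simp [mat] <;> ring
      rw [e2, e4] at h1
      rw [e3]
      exact h1
  have h1 := h.g2_all sbms
  have h2 := H79.moll _ h1.1 h1.2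
  rw [funext e]
  exact h2

end Pool.Agent.MP_515557_an.H63
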