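import Pool.Agent.MP_515557_an.H11.MBurk

/-! The truncated function of Burkholder is quasiconvex. -/

set_option autoImplicit false

open Set Filter Topology

namespace Pool.Agent.MP_515557_an.H63

open H11.Mono

/-- First coefficient of the difference between the function of Burkholder and its tangent. -/
noncomputable def HA (p γ R x : ℝ) : ℝ :=
  γ * (p - 2) * x ^ p - γ * (p * (p - 2) * R ^ (p - 1) * x - (p - 1) * (p - 2) * R ^ p)

/-- Second coefficient of the difference between the function of Burkholder and its tangent. -/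
noncomputable def HB (p γ R x : ℝ) : ℝ :=
  γ * p * x ^ (p - 1) - γ * (p * (p - 1) * R ^ (p - 1 - 1) * x - p * (p - 2) * R ^ (p - 1))

theorem pow_aux {R : ℝ} (hR : 0 < R) (q : ℝ) : R ^ q = R ^ (q - 1) * R := by
  rw [← Real.rpow_add_one hR.ne']; congr 1; ring

theorem HA_self {p γ R : ℝ} (hR : 0 < R) : HA p γ R R = 0 := by
  unfold HA; rw [pow_aux hR p]; ring

theorem HB_self {p γ R : ℝ} (hR : 0 < R) : HB p γ R R = 0 := by
  unfold HB; rw [pow_aux hR (p - 1)]; ring

theorem convexOn_H {p γ : ℝ} (hp : 1 < p) (hγ : 0 ≤ γ * (p - 2)) (R y : ℝ) :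
    ConvexOn ℝ (Ici |y|) fun x => HA p γ R x + y * HB p γ R x := by
  have h1 := convexOn_burk (c := γ * (p - 2)) (d := γ * p) hp (by
    rw [abs_of_nonneg (by nlinarith)]; exact le_of_eq (by ring)) y
  have h2 : ConcaveOn ℝ (Ici |y|) fun x : ℝ =>
      γ * (p * (p - 2) * R ^ (p - 1) * x - (p - 1) * (p - 2) * R ^ p)
        + y * (γ * (p * (p - 1) * R ^ (p - 1 - 1) * x - p * (p - 2) * R ^ (p - 1))) := by
    refine ⟨convex_Ici _, fun u _ v _ a b _ _ hab => le_of_eq ?_⟩
    simp only [smul_eq_mul]
    have : b = 1 - a := by linarith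
    subst this
    ring
  refine (h1.sub h2).congr fun x _ => ?_
  simp only [HA, HB, Pi.sub_apply]
  ring

theorem hasDerivAt_H {p γ R x y : ℝ} (hx : 0 < x) :
    HasDerivAt (fun x => HA p γ R x + y * HB p γ R x)
      (γ * p * (p - 2) * (x ^ (p - 1) - R ^ (p - 1))
        + y * (γ * p * (p - 1) * (x ^ (p - 1 - 1) - R ^ (p - 1 - 1)))) x := by
  have h1 := hasDerivAt_burk (p := p) (c := γ * (p - 2)) (d := γ * p) (y := y) hx
  have h2 := ((((hasDerivAt_id x).const_mul (p * (p - 2) * R ^ (p - 1))).sub_const
    ((p - 1) * (p - 2) * R ^ p)).const_mul γ).add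
    (((((hasDerivAt_id x).const_mul (p * (p - 1) * R ^ (p - 1 - 1))).sub_const
      (p * (p - 2) * R ^ (p - 1))).const_mul γ).const_mul y)
  refine ((h1.sub h2).congr_deriv (by ring)).congr_of_eventuallyEq
    (Eventually.of_forall fun x => ?_)
  simp only [HA, HB, Pi.sub_apply, Pi.add_apply, id]
  ring

theorem H_nonneg {p γ R x y : ℝ} (hp : 1 < p) (hγ : 0 ≤ γ * (p - 2)) (hR : 0 < R) (hx : |y| ≤ x)
    (hy : |y| ≤ R) : 0 ≤ HA p γ R x + y * HB p γ R x := by
  have hc := convexOn_H hp hγ R y
  have hd := hasDerivAt_H (p := p) (γ := γ) (R := R) (y := y) hR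
  simp only [sub_self, mul_zero, add_zero] at hd
  rcases lt_trichotomy x R with h | rfl | h
  · have := hc.slope_le_of_hasDerivAt hx hy h hd
    rw [slope_def_field, div_le_iff₀ (by linarith), HA_self hR, HB_self hR] at this
    linarith
  · rw [HA_self hR, HB_self hR]; simp
  · have := hc.le_slope_of_hasDerivAt hy hx h hd
    rw [slope_def_field, le_div_iff₀ (by linarith), HA_self hR, HB_self hR] at this
    linarith

theorem g2_H (hB : SBMS) {p γ R : ℝ} (hp : 1 < p) (hγ : 0 ≤ γ * (p - 2)) (hR : 0 < R) :
    G2 fun a b => HA p γ R (max (a + b) R) + (a - b) * HB p γ R (max (a + b) R) := by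
  refine g2_class hB (A := fun x => HA p γ R (max x R)) (B := fun x => HB p γ R (max x R))
    (fun y => ?_) fun h x s h0 hx hs => ?_
  · have hc := convexOn_H hp hγ R y
    rcases le_or_gt R |y| with hy | hy
    · refine hc.congr fun x hx => ?_
      have : max x R = x := max_eq_left (hy.trans hx)
      simp only [this]
    · refine ⟨convex_Ici _, fun u _ v _ a b ha hb hab => ?_⟩
      have m : ∀ x, max x R ∈ Ici |y| := fun x => hy.le.trans (le_max_right _ _)
      have h1 := hc.2 (m u) (m v) ha hb hab
      refine le_trans ?_ h1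
      have h2 : max (a • u + b • v) R ≤ a • max u R + b • max v R := by
        simp only [smul_eq_mul]
        refine max_le ?_ ?_
        · nlinarith [le_max_left u R, le_max_left v R]
        · have : R = a * R + b * R := by rw [← add_mul, hab, one_mul]
          nlinarith [le_max_right u R, le_max_right v R]
      have h3 : a • max u R + b • max v R ∈ Ici |y| := (m _).trans h2
      rcases (le_max_right (a • u + b • v) R).lt_or_eq with h4 | h4
      · refine hc.le_right_of_left_le'' (x := R) hy.le h3 h4 h2 ?_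
        rw [HA_self hR, HB_self hR]
        simpa using H_nonneg hp hγ hR (m _) hy.le
      · beta_reduce
        rw [← h4, HA_self hR, HB_self hR]
        simpa using H_nonneg hp hγ hR h3 hy.le
  · have es : |s * h| = h := by rcases hs with rfl | rfl <;> simp [abs_of_nonneg h0]
    rcases le_or_gt h R with h1 | h1
    · rw [max_eq_right h1, HA_self hR, HB_self hR]
      have := H_nonneg (x := max x R) (y := s * h) hp hγ hR
        (by rw [es]; exact hx.trans (le_max_left _ _)) (by rw [es]; exact h1)
      linarith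
    · have hh : 0 < h := hR.trans h1
      rw [max_eq_left h1.le, max_eq_left (h1.le.trans hx)]
      rcases hx.lt_or_eq with h2 | rfl
      swap
      · simp
      have h3 := (convexOn_H hp hγ R (s * h)).le_slope_of_hasDerivAt (x := h) (y := x)
        (by simp [es]) (by simp [es, hx]) h2 (hasDerivAt_H hh)
      rw [slope_def_field, le_div_iff₀ (by linarith)] at h3
      have h4 : R ^ (p - 1) ≤ h ^ (p - 1) := Real.rpow_le_rpow hR.le h1.le (by linarith)
      have h5 : 0 ≤ γ * (p - 2) * p * (h ^ (p - 1) - R ^ (p - 1)) * (x - h) :=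
        mul_nonneg (mul_nonneg (mul_nonneg hγ (by linarith)) (by linarith)) (by linarith)
      have e : s * HB p γ R h + (1 + s) * (γ * (p - 2) * p * (h ^ (p - 1) - R ^ (p - 1)))
          = γ * p * (p - 2) * (h ^ (p - 1) - R ^ (p - 1))
            + s * h * (γ * p * (p - 1) * (h ^ (p - 1 - 1) - R ^ (p - 1 - 1))) := by
        unfold HB
        rw [pow_aux hh (p - 1)]
        ring
      rw [← e] at h3
      rcases hs with rfl | rfl <;> nlinarith

end Pool.Agent.MP_515557_an.H63
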