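import Pool.Agent.MP_515557_an.H63.Cut
import Pool.Agent.MP_515557_an.H63.Burk

/-! A quasiconvex minorant at the points where the tangent function is not rank-one convex. -/

set_option autoImplicit false

open Set Filter Topology

namespace Pool.Agent.MP_515557_an.H63

open H11.Mono

/-- The tangent plane in the coordinates `(b, D)`. -/
noncomputable def P0 (p α σ t a b : ℝ) : ℝ :=
  α + σ * t + dS p α σ t * (a ^ 2 - b ^ 2 - t) + 2 * qS p α σ t * (b - (1 - t) / 2)

theorem Lam_split (p γ r a b : ℝ) : Lam p (γ * (p - 2)) (γ * p) a b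
    = HA p γ r (a + b) + (a - b) * HB p γ r (a + b)
      + γ * p * (p - 1) * r ^ (p - 1 - 1) * (a ^ 2 - b ^ 2)
      + (2 * γ * p * (p - 2) * r ^ (p - 1) * b - γ * (p - 1) * (p - 2) * r ^ p) := by
  unfold Lam HA HB; ring

/-- There is a quasiconvex minorant that touches at the given point. -/
def Touch (f : ℝ → ℝ → ℝ) (a0 b0 : ℝ) : Prop :=
  ∃ V, G2 V ∧ (∀ a b, 0 < a → 0 < b → V a b ≤ f a b) ∧ V a0 b0 = f a0 b0

namespace Cut

variable {p : ℝ} {f : ℝ → ℝ → ℝ} {t1 γ α σ t : ℝ}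

theorem lt_slope (h : Cut p f t1 γ) (h1 : t1 ≤ t) (h2 : t < 1) (he : α + σ * t = om f t)
    (hT : p * α - (p - 2) * σ < 0) : γ * p < σ := by
  have k1 := h.le t ⟨h.lo'.le.trans h1, h2.le⟩
  have p0 : 0 < p := by linarith [h.hp]
  have k2 : 0 ≤ p - 2 + p * t := by nlinarith [h.lo]
  by_contra hn
  push Not at hn
  rw [← he] at k1
  nlinarith [mul_nonneg (sub_nonneg.2 hn) k2, mul_le_mul_of_nonneg_left k1 p0.le]

theorem base (h : Cut p f t1 γ) (h1 : t1 ≤ t) (h2 : t < 1) :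
    gT p f t1 γ ((1 + t) / 2) ((1 - t) / 2) = om f t := by
  have k := h.lo'
  have e3 : (1 + t) / 2 + (1 - t) / 2 = 1 := by ring
  have e4 : (1 + t) / 2 - (1 - t) / 2 = t := by ring
  rw [h.gT_right (by linarith) (by linarith) (by linarith) (by rw [e3, e4, div_one]; exact h1),
    om_eq f (by linarith) h2.le]

theorem support (h : Cut p f t1 γ) (h1 : t1 ≤ t) (h2 : t < 1)
    (hs : ∀ s ∈ Icc (-1 : ℝ) 1, α + σ * s ≤ om f s) (he : α + σ * t = om f t)
    (hT : p * α - (p - 2) * σ < 0) {a b : ℝ} (ha : 0 ≤ a) (hb : 0 < b)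
    (hκ : |b - (1 - t) / 2| < (1 + t) / 2) : P0 p α σ t a b ≤ gT p f t1 γ a b := by
  have t0 : -1 < t := h.lo'.trans_le h1
  have b0 : 0 < (1 - t) / 2 := by linarith
  have a0 : 0 < (1 + t) / 2 := by linarith
  have e2 : ((1 + t) / 2) ^ 2 - ((1 - t) / 2) ^ 2 = t := by ring
  have e3 : (1 + t) / 2 + (1 - t) / 2 = 1 := by ring
  have e4 : (1 + t) / 2 - (1 - t) / 2 = t := by ring
  have k := deriv_le_of_le (k := gT p f t1 γ a b - om f t)
    (hasDerivAt_Lam_base (p := p) (α := α) (σ := σ) (κ := b - (1 - t) / 2)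
      (m := a ^ 2 - b ^ 2 - t) t0) (by
    filter_upwards [Ioo_mem_nhdsGT one_pos] with s hs'
    have k1 := h.seg b0 hb ha hκ (Ioo_subset_Icc_self hs')
    rw [e2, h.base h1 h2] at k1
    have k2 : 0 < (1 - t) / 2 + (b - (1 - t) / 2) * s := by nlinarith [hs'.1, hs'.2]
    have k3 := h.Lam_le_gT hs (h.lt_slope h1 h2 he hT).le
      (Real.sqrt_nonneg (NL ((1 - t) / 2) t (b - (1 - t) / 2) (a ^ 2 - b ^ 2 - t) s)) k2.le
      (add_pos_of_nonneg_of_pos (Real.sqrt_nonneg _) k2)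
    rw [NL_zero, Real.sqrt_sq a0.le, mul_zero, add_zero,
      Lam_eq p α σ (a := (1 + t) / 2) (by linarith), e3, e4, Real.one_rpow, div_one, one_mul, he]
    linarith)
  unfold P0
  linarith

theorem inner (h : Cut p f t1 γ) (h1 : t1 ≤ t) (h2 : t < 1)
    (hs : ∀ s ∈ Icc (-1 : ℝ) 1, α + σ * s ≤ om f s) (he : α + σ * t = om f t)
    (hT : p * α - (p - 2) * σ < 0) {R : ℝ} (hR : 1 ≤ R)
    (hd : ∀ r, 0 < r → r ≤ R → γ * p * (p - 1) * r ^ (p - 1 - 1) ≤ dS p α σ t)
    {a b : ℝ} (ha : 0 ≤ a) (hb : 0 < b) (hbR : b < R) (hab : a + b ≤ R) :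
    P0 p α σ t a b ≤ gT p f t1 γ a b := by
  have t0 : -1 < t := h.lo'.trans_le h1
  set k := (1 + t1) / (1 - t1) with hk
  have k0 : 0 < k := div_pos (by linarith [h.lo']) (by linarith [h.hi])
  have ek : k * (1 - t1) = 1 + t1 := div_mul_cancel₀ _ (by linarith [h.hi])
  have ex : ∀ b : ℝ, ∃ c : ℝ, 0 < b → b < R → min (R - b) (k * b) ≤ c ∧ c ≤ R - b ∧
      ∀ a, 0 ≤ a → a ≤ R - b →
        gT p f t1 γ c b - P0 p α σ t c b ≤ gT p f t1 γ a b - P0 p α σ t a b := by
    intro b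
    by_cases hh : 0 < b ∧ b < R
    swap
    · exact ⟨0, fun u v => absurd ⟨u, v⟩ hh⟩
    obtain ⟨hb, hbR⟩ := hh
    set δ := min (R - b) (k * b) with hδ
    have δ0 : 0 < δ := lt_min (by linarith) (by positivity)
    have δ1 : δ ≤ R - b := min_le_left _ _
    have δ2 : δ ≤ k * b := min_le_right _ _
    obtain ⟨c, mc, hc⟩ := (isCompact_Icc (a := δ) (b := R - b)).exists_isMinOn
      (f := fun a => gT p f t1 γ a b - P0 p α σ t a b) ⟨δ, le_rfl, δ1⟩
      ((h.continuousOn_gT continuousOn_id continuousOn_const fun a ha => by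
        have := ha.1
        simp only [id]
        linarith).sub (by unfold P0; fun_prop))
    refine ⟨c, fun _ _ => ⟨mc.1, mc.2, fun a ha ha' => ?_⟩⟩
    rcases le_total δ a with u | u
    · exact hc (show a ∈ Icc δ (R - b) from ⟨u, ha'⟩)
    refine le_trans (hc (show δ ∈ Icc δ (R - b) from ⟨le_rfl, δ1⟩)) ?_
    have r0 : 0 < δ + b := by linarith
    have u1 := h.B_le ha hb.le (by linarith)
    have u2 : |a - b| ≤ a + b := abs_le.2 ⟨by linarith, by linarith⟩
    have u3 := H_nonneg (R := δ + b) h.hp h.sign r0 u2 (by linarith)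
    have u4 := hd (δ + b) r0 (by linarith)
    have u5 := mul_nonneg (sub_nonneg.2 u4) (show 0 ≤ δ ^ 2 - a ^ 2 by nlinarith)
    rw [Lam_split p γ (δ + b)] at u1
    beta_reduce
    rw [h.gT_left (by
      rw [div_le_iff₀ r0]
      nlinarith [mul_le_mul_of_nonneg_right δ2 (sub_pos.2 h.hi).le]),
      Lam_split p γ (δ + b), HA_self r0, HB_self r0]
    unfold P0
    linarith
  choose c hc using ex
  set b0 := (1 - t) / 2 with hb0
  have b0p : 0 < b0 := by linarith
  have b0R : b0 < R := by linarith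
  have mem : ∀ x ∈ uIcc b0 b, min b0 b ≤ x ∧ x ≤ max b0 b := fun x hx => hx
  have m0 : 0 < min b0 b := lt_min b0p hb
  have m1 : max b0 b < R := max_lt b0R hbR
  set δ := min ((1 + t) / 2) (min (R - max b0 b) (k * min b0 b)) with hδ
  have δ0 : 0 < δ := lt_min (by linarith) (lt_min (by linarith) (by positivity))
  have δ1 : δ ≤ (1 + t) / 2 := min_le_left _ _
  have δ2 : ∀ x ∈ uIcc b0 b, δ ≤ min (R - x) (k * x) := fun x hx =>
    (min_le_right _ _).trans (min_le_min (by linarith [(mem x hx).2])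
      (mul_le_mul_of_nonneg_left (mem x hx).1 k0.le))
  have pos : ∀ x ∈ uIcc b0 b, 0 < x ∧ x < R := fun x hx =>
    ⟨m0.trans_le (mem x hx).1, (mem x hx).2.trans_lt m1⟩
  have c0 : ∀ x ∈ uIcc b0 b, δ ≤ c x := fun x hx =>
    (δ2 x hx).trans (hc x (pos x hx).1 (pos x hx).2).1
  have sup : ∀ x ∈ uIcc b0 b, |x - b0| < δ → 0 ≤ gT p f t1 γ (c x) x - P0 p α σ t (c x) x :=
    fun x hx hx' => sub_nonneg.2 (h.support h1 h2 hs he hT (δ0.le.trans (c0 x hx)) (pos x hx).1
      (hx'.trans_le δ1))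
  have g := grid (ψ := fun x => gT p f t1 γ (c x) x - P0 p α σ t (c x) x) (b0 := b0) (b1 := b) δ0
    (fun x hx y hy hxy => ?_) fun x hx hx' => ?_
  · have u1 := sup b0 left_mem_uIcc (by simpa using δ0)
    have u2 := (hc b hb hbR).2.2 a ha (by linarith)
    linarith
  · obtain ⟨x0, x1⟩ := pos x hx
    obtain ⟨y0, y1⟩ := pos y hy
    have cx := δ0.trans_le (c0 x hx)
    have cy := δ0.trans_le (c0 y hy)
    have hκ := hxy.trans_le (c0 x hx)
    have u1 := h.seg x0 y0 cy.le hκ (s := 1 / 2) ⟨by norm_num, by norm_num⟩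
    have e1 : x + (y - x) * (1 / 2) = (x + y) / 2 := by ring
    rw [e1] at u1
    set N := NL x (c x ^ 2 - x ^ 2) (y - x) (c y ^ 2 - y ^ 2 - (c x ^ 2 - x ^ 2)) (1 / 2) with hN
    have eN : N = (c x ^ 2 - x ^ 2 + (c y ^ 2 - y ^ 2)) / 2 + ((x + y) / 2) ^ 2 := by
      rw [hN]; unfold NL; ring
    have q : (y - x) ^ 2 < c x ^ 2 := sq_lt_sq' (abs_lt.1 hκ).1 (abs_lt.1 hκ).2
    have N0 : 0 ≤ N := by rw [eN]; nlinarith [sq_nonneg (c y), sq_nonneg (c x)]
    have q1 : c x ^ 2 ≤ (R - x) ^ 2 := pow_le_pow_left₀ cx.le (hc x x0 x1).2.1 2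
    have q2 : c y ^ 2 ≤ (R - y) ^ 2 := pow_le_pow_left₀ cy.le (hc y y0 y1).2.1 2
    have u2 := (hc ((x + y) / 2) (by linarith) (by linarith)).2.2 √N (Real.sqrt_nonneg _)
      (Real.sqrt_le_iff.2 ⟨by linarith, by rw [eN]; nlinarith⟩)
    have e2 : 2 * P0 p α σ t √N ((x + y) / 2) = P0 p α σ t (c x) x + P0 p α σ t (c y) y := by
      unfold P0
      rw [Real.sq_sqrt N0, eN]
      ring
    linarith
  · have u1 := sup x hx hx'
    have u2 := (hc b0 b0p b0R).2.2 ((1 + t) / 2) (by linarith) (by linarith)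
    have e : P0 p α σ t ((1 + t) / 2) b0 = om f t := by
      rw [hb0, ← he]; unfold P0; ring
    rw [e, hb0, h.base h1 h2, ← hb0] at u2
    linarith

theorem excess_mono (h : Cut p f t1 γ) {a a' b : ℝ} (ha : 0 ≤ a) (hb : 0 < b) (haa : a ≤ a') :
    gT p f t1 γ a b - Lam p (γ * (p - 2)) (γ * p) a b
      ≤ gT p f t1 γ a' b - Lam p (γ * (p - 2)) (γ * p) a' b := by
  have x0 : 0 < a + b := by linarith
  have x1 : 0 < a' + b := by linarith
  simp only [gT, add_sub_cancel_left]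
  refine mul_le_mul (Real.rpow_le_rpow x0.le (by linarith) (by linarith [h.hp]))
    (h.eT_mono ?_ (ratio_mem (ha.trans haa) hb.le x1).2) (h.eT_nonneg (ratio_mem ha hb.le x0).2)
    (Real.rpow_pos_of_pos x1 _).le
  rw [div_le_div_iff₀ x0 x1]
  nlinarith

theorem g2_P0 (hB : SBMS) (hq : 0 ≤ qS p α σ t) : G2 (P0 p α σ t) := by
  refine (((GQ.const (α + σ * t - dS p α σ t * t - qS p α σ t * (1 - t))).add
    (g2_det_mul hB (dS p α σ t))).add
    ((g2_fst hB).swap.smul (c := 2 * qS p α σ t) (by linarith))).congr fun A => ?_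
  unfold P0
  ring

theorem touch (hB : SBMS) (h : Cut p f t1 γ) (h1 : t1 ≤ t) (h2 : t < 1)
    (hs : ∀ s ∈ Icc (-1 : ℝ) 1, α + σ * s ≤ om f s) (he : α + σ * t = om f t)
    (hT : p * α - (p - 2) * σ < 0) : Touch f ((1 + t) / 2) ((1 - t) / 2) := by
  have t0 : -1 < t := h.lo'.trans_le h1
  have hp := h.hp
  have p0 : 0 < p := by linarith
  have hq := h.hyp.be ⟨t0, h2⟩ hs he
  have hq' : 0 ≤ qS p α σ t := div_nonneg hq (by linarith)
  have hσ := h.lt_slope h1 h2 he hT
  have k1 := h.le t ⟨t0.le, h2.le⟩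
  have ed : dS p α σ t * (1 + t) = p * α + ((p - 1) * t + 1) * σ :=
    div_mul_cancel₀ _ (by linarith)
  have d1 : γ * p * (p - 1) < dS p α σ t := by
    refine lt_of_mul_lt_mul_right ?_ (by linarith : 0 ≤ 1 + t)
    rw [ed]
    rw [← he] at k1
    nlinarith [mul_pos (sub_pos.2 hσ) (sub_pos.2 h2), mul_le_mul_of_nonneg_left k1 p0.le]
  have eb : P0 p α σ t ((1 + t) / 2) ((1 - t) / 2) = f ((1 + t) / 2) ((1 - t) / 2) := by
    rw [← om_eq f t0.le h2.le, ← he]; unfold P0; ring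
  by_cases hγ : γ = 0
  · refine ⟨P0 p α σ t, g2_P0 hB hq', fun a b ha hb => ?_, eb⟩
    refine (h.inner h1 h2 hs he hT (R := a + b + 1) (by linarith) (fun r _ _ => ?_) ha.le hb
      (by linarith) (by linarith)).trans (h.gT_le ha.le hb.le (by linarith))
    rw [hγ] at d1 ⊢
    simpa using d1.le
  have sg := h.sign
  have p2 : p - 2 ≠ 0 := by
    intro e
    have e' : p = 2 := by linarith
    subst e'
    norm_num at hq hT
    linarith
  obtain ⟨R, R1, eR, hd⟩ : ∃ R : ℝ, 1 ≤ R ∧ γ * p * (p - 1) * R ^ (p - 1 - 1) = dS p α σ t ∧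
      ∀ r, 0 < r → r ≤ R → γ * p * (p - 1) * r ^ (p - 1 - 1) ≤ dS p α σ t := by
    have pp : 0 < p * (p - 1) := mul_pos p0 (by linarith)
    have e2 : p - 1 - 1 ≠ 0 := fun e => p2 (by linarith)
    rcases lt_or_gt_of_ne hγ with g | g
    · have p3 : p - 1 - 1 < 0 := lt_of_le_of_ne (by nlinarith) e2
      have c0 : γ * p * (p - 1) < 0 := by nlinarith
      have s0 : σ < 0 := by
        have : 0 < (p - 2) * (σ * (1 + t)) := by nlinarith
        have : σ * (1 + t) < 0 := by nlinarith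
        nlinarith
      have d0 : dS p α σ t < 0 := by
        refine neg_of_mul_neg_left ?_ (by linarith : 0 ≤ 1 + t)
        rw [ed]
        nlinarith [mul_pos (mul_pos (sub_pos.2 hp) (show 0 < 1 + t by linarith)) (neg_pos.2 s0)]
      have q0 : 0 < dS p α σ t / (γ * p * (p - 1)) := div_pos_of_neg_of_neg d0 c0
      have q1 : dS p α σ t / (γ * p * (p - 1)) ≤ 1 := by
        rw [div_le_one_of_neg c0]; exact d1.le
      have e : γ * p * (p - 1) * ((dS p α σ t / (γ * p * (p - 1))) ^ (p - 1 - 1)⁻¹) ^ (p - 1 - 1)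
          = dS p α σ t := by
        rw [Real.rpow_inv_rpow q0.le e2, mul_div_cancel₀ _ c0.ne]
      refine ⟨_, Real.one_le_rpow_of_pos_of_le_one_of_nonpos q0 q1 (inv_nonpos.2 p3.le), e,
        fun r r0 r1 => ?_⟩
      rw [← e]
      exact mul_le_mul_of_nonpos_left (Real.rpow_le_rpow_of_nonpos r0 r1 p3.le) c0.le
    · have p3 : 0 < p - 1 - 1 := lt_of_le_of_ne (by nlinarith) e2.symm
      have c0 : 0 < γ * p * (p - 1) := by nlinarith
      have q1 : 1 ≤ dS p α σ t / (γ * p * (p - 1)) := by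
        rw [one_le_div c0]; exact d1.le
      have e : γ * p * (p - 1) * ((dS p α σ t / (γ * p * (p - 1))) ^ (p - 1 - 1)⁻¹) ^ (p - 1 - 1)
          = dS p α σ t := by
        rw [Real.rpow_inv_rpow (by linarith) e2, mul_div_cancel₀ _ c0.ne']
      refine ⟨_, Real.one_le_rpow q1 (inv_nonneg.2 p3.le), e, fun r r0 r1 => ?_⟩
      rw [← e]
      exact mul_le_mul_of_nonneg_left (Real.rpow_le_rpow r0.le r1 p3.le) c0.le
  have R0 : 0 < R := by linarith
  have inn := fun a b => h.inner (a := a) (b := b) h1 h2 hs he hT R1 hd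
  refine ⟨fun a b => P0 p α σ t a b + (HA p γ R (max (a + b) R) + (a - b) * HB p γ R (max (a + b) R)),
    (g2_P0 hB hq').add (g2_H hB hp sg R0), fun a b ha hb => ?_, ?_⟩
  swap
  · beta_reduce
    rw [max_eq_right (by linarith), HA_self R0, HB_self R0, eb]
    ring
  refine le_trans ?_ (h.gT_le ha.le hb.le (by linarith))
  beta_reduce
  rcases le_total (a + b) R with u | u
  · rw [max_eq_right u, HA_self R0, HB_self R0]
    have := inn a b ha.le hb (by linarith) u
    linarith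
  rw [max_eq_left u]
  have split : ∀ a b : ℝ, Lam p (γ * (p - 2)) (γ * p) a b
      = HA p γ R (a + b) + (a - b) * HB p γ R (a + b) + dS p α σ t * (a ^ 2 - b ^ 2)
      + (2 * γ * p * (p - 2) * R ^ (p - 1) * b - γ * (p - 1) * (p - 2) * R ^ p) := fun a b => by
    rw [← eR]; exact Lam_split p γ R a b
  have edge : ∀ b : ℝ, Lam p (γ * (p - 2)) (γ * p) (R - b) b = dS p α σ t * ((R - b) ^ 2 - b ^ 2)
      + (2 * γ * p * (p - 2) * R ^ (p - 1) * b - γ * (p - 1) * (p - 2) * R ^ p) := fun b => by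
    rw [split, sub_add_cancel, HA_self R0, HB_self R0]; ring
  rcases lt_or_ge b R with v | v
  · have w1 := inn (R - b) b (by linarith) hb v (by linarith)
    have w2 := h.excess_mono (a := R - b) (a' := a) (by linarith) hb (by linarith)
    rw [edge, split] at w2
    unfold P0 at w1 ⊢
    linarith
  · set b' := R * (3 - t1) / 4 with hb'
    have l1 := h.lo'
    have l2 := h.hi
    have v1 : b' < R := by rw [hb']; nlinarith
    have v2 : (1 - t) / 2 < b' := by rw [hb']; nlinarith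
    have w1 := inn (R - b') b' (by linarith) (by linarith) v1 (by linarith)
    rw [h.gT_left (by
      rw [div_le_iff₀ (by linarith), hb']
      nlinarith), edge] at w1
    have w2 := h.B_le (a := (1 + t) / 2) (b := (1 - t) / 2) (by linarith) (by linarith)
      (by linarith)
    have w3 := H_nonneg (x := (1 + t) / 2 + (1 - t) / 2) (y := (1 + t) / 2 - (1 - t) / 2) hp sg R0
      (abs_le.2 ⟨by linarith, by linarith⟩) (abs_le.2 ⟨by linarith, by linarith⟩)
    rw [h.base h1 h2, split, ← he] at w2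
    have w4 := h.B_le ha.le hb.le (by linarith)
    rw [split] at w4
    unfold P0 at w1 ⊢
    generalize γ * (p - 1) * (p - 2) * R ^ p = C at *
    generalize 2 * γ * p * (p - 2) * R ^ (p - 1) = Q at *
    have w5 : 0 ≤ (Q - 2 * qS p α σ t) * (b' - (1 - t) / 2) := by nlinarith
    have w6 : 0 ≤ Q - 2 * qS p α σ t := nonneg_of_mul_nonneg_left w5 (by linarith)
    nlinarith [mul_nonneg w6 (show 0 ≤ b - b' by linarith)]

end Cut

end Pool.Agent.MP_515557_an.H63
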