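import Pool.Agent.MP_515557_an.H63.Line

/-! Homogeneous functions of the two moduli that are convex along rank-one lines. -/

set_option autoImplicit false

open Set Filter Topology

namespace Pool.Agent.MP_515557_an.H63

/-- Homogeneity and convexity along rank-one lines, for a function of the two moduli. -/
structure Hyp (p : ℝ) (f : ℝ → ℝ → ℝ) : Prop where
  hom : ∀ l a b : ℝ, 0 < l → f (l * a) (l * b) = l ^ p * f a b
  line : ∀ z w u v : ℂ, ‖u‖ = ‖v‖ → ConvexOn ℝ univ fun s : ℝ => f ‖z + s * u‖ ‖w + s * v‖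

theorem Hyp.swap {p : ℝ} {f : ℝ → ℝ → ℝ} (h : Hyp p f) : Hyp p fun a b => f b a :=
  ⟨fun l a b hl => h.hom l b a hl, fun z w u v e => h.line w z v u e.symm⟩

/-- The profile along the matrices `diag (1, s)`. -/
noncomputable def om (f : ℝ → ℝ → ℝ) (s : ℝ) : ℝ := f |(1 + s) / 2| |(1 - s) / 2|

theorem om_swap (f : ℝ → ℝ → ℝ) (s : ℝ) : om (fun a b => f b a) (-s) = om f s := by
  simp [om, sub_eq_add_neg]

theorem Hyp.convexOn_om {p : ℝ} {f : ℝ → ℝ → ℝ} (h : Hyp p f) : ConvexOn ℝ univ (om f) := by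
  refine (h.line (1 / 2) (1 / 2) (1 / 2) (-(1 / 2)) (by simp)).congr fun s _ => ?_
  have e1 : (1 / 2 : ℂ) + s * (1 / 2) = (((1 + s) / 2 : ℝ) : ℂ) := by push_cast; ring
  have e2 : (1 / 2 : ℂ) + s * (-(1 / 2)) = (((1 - s) / 2 : ℝ) : ℂ) := by push_cast; ring
  simp only [e1, e2, Complex.norm_real, Real.norm_eq_abs, om]

theorem Hyp.continuous_om {p : ℝ} {f : ℝ → ℝ → ℝ} (h : Hyp p f) : Continuous (om f) :=
  continuousOn_univ.1 (h.convexOn_om.continuousOn isOpen_univ)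

theorem ratio_mem {a b : ℝ} (ha : 0 ≤ a) (hb : 0 ≤ b) (hx : 0 < a + b) :
    (a - b) / (a + b) ∈ Icc (-1 : ℝ) 1 :=
  ⟨by rw [le_div_iff₀ hx]; linarith, by rw [div_le_iff₀ hx]; linarith⟩

theorem ratio_mem' {a b : ℝ} (ha : 0 < a) (hb : 0 < b) :
    (a - b) / (a + b) ∈ Ioo (-1 : ℝ) 1 :=
  ⟨by rw [lt_div_iff₀ (add_pos ha hb)]; linarith, by rw [div_lt_iff₀ (add_pos ha hb)]; linarith⟩

theorem Hyp.eq_om {p : ℝ} {f : ℝ → ℝ → ℝ} (h : Hyp p f) {a b : ℝ} (ha : 0 ≤ a) (hb : 0 ≤ b)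
    (hx : 0 < a + b) : f a b = (a + b) ^ p * om f ((a - b) / (a + b)) := by
  have e1 : (1 + (a - b) / (a + b)) / 2 = a / (a + b) := by field_simp; ring
  have e2 : (1 - (a - b) / (a + b)) / 2 = b / (a + b) := by field_simp; ring
  rw [om, e1, e2, abs_of_nonneg (by positivity), abs_of_nonneg (by positivity), ← h.hom _ _ _ hx,
    mul_div_cancel₀ _ hx.ne', mul_div_cancel₀ _ hx.ne']

theorem om_eq (f : ℝ → ℝ → ℝ) {t : ℝ} (h1 : -1 ≤ t) (h2 : t ≤ 1) :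
    om f t = f ((1 + t) / 2) ((1 - t) / 2) := by
  rw [om, abs_of_nonneg (by linarith), abs_of_nonneg (by linarith)]

theorem Lam_eq (p α σ : ℝ) {a b : ℝ} (hx : 0 < a + b) :
    Lam p α σ a b = (a + b) ^ p * (α + σ * ((a - b) / (a + b))) := by
  have e : (a + b) ^ p = (a + b) ^ (p - 1) * (a + b) := by
    rw [← Real.rpow_add_one hx.ne']; congr 1; ring
  rw [Lam, e]
  field_simp

theorem Hyp.Lam_le {p : ℝ} {f : ℝ → ℝ → ℝ} (h : Hyp p f) {α σ : ℝ}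
    (hs : ∀ s ∈ Icc (-1 : ℝ) 1, α + σ * s ≤ om f s) {a b : ℝ} (ha : 0 ≤ a) (hb : 0 ≤ b)
    (hx : 0 < a + b) : Lam p α σ a b ≤ f a b := by
  rw [Lam_eq p α σ hx, h.eq_om ha hb hx]
  exact mul_le_mul_of_nonneg_left (hs _ (ratio_mem ha hb hx)) (Real.rpow_pos_of_pos hx _).le

theorem norm_mk (x y : ℝ) : ‖(⟨x, y⟩ : ℂ)‖ = √(x ^ 2 + y ^ 2) := Complex.norm_eq_sqrt_sq_add_sq _

/-- Monotonicity in `b` for fixed determinant. -/
theorem Hyp.mono_b {p : ℝ} {f : ℝ → ℝ → ℝ} (h : Hyp p f) {D b b' : ℝ} (h0 : 0 ≤ b') (hb : b' ≤ b)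
    (hD : 0 ≤ D + b' ^ 2) : f √(D + b' ^ 2) b' ≤ f √(D + b ^ 2) b := by
  have hc := h.line (√(D + b' ^ 2) : ℝ) (b' : ℝ) Complex.I Complex.I rfl
  have q : 0 ≤ b ^ 2 - b' ^ 2 := by nlinarith
  have h1 := hc.2 (mem_univ (√(b ^ 2 - b' ^ 2))) (mem_univ (-√(b ^ 2 - b' ^ 2)))
    (by norm_num : (0 : ℝ) ≤ 1 / 2) (by norm_num : (0 : ℝ) ≤ 1 / 2) (by norm_num)
  have e : ∀ x y : ℝ, ‖(x : ℂ) + (y : ℝ) * Complex.I‖ = √(x ^ 2 + y ^ 2) := fun x y => by
    rw [← norm_mk]; congr 1; apply Complex.ext <;> simp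
  have e0 : (1 / 2 : ℝ) • √(b ^ 2 - b' ^ 2) + (1 / 2 : ℝ) • -√(b ^ 2 - b' ^ 2) = 0 := by simp
  rw [e0] at h1
  simp only [e, neg_sq, Real.sq_sqrt q, Real.sq_sqrt hD, smul_eq_mul] at h1
  have e1 : D + b' ^ 2 + (b ^ 2 - b' ^ 2) = D + b ^ 2 := by ring
  have e2 : b' ^ 2 + (b ^ 2 - b' ^ 2) = b ^ 2 := by ring
  have e3 : D + b' ^ 2 + 0 ^ 2 = D + b' ^ 2 := by ring
  have e4 : b' ^ 2 + 0 ^ 2 = b' ^ 2 := by ring
  rw [e1, e2, e3, e4, Real.sqrt_sq h0, Real.sqrt_sq (h0.trans hb)] at h1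
  linarith

/-- Lines with nonpositive discriminant are rank-one lines. -/
theorem Hyp.mid_I {p : ℝ} {f : ℝ → ℝ → ℝ} (h : Hyp p f) {b0 D0 κ m s : ℝ}
    (hN : 0 < NL b0 D0 κ m s)
    (hd : (m + 2 * κ * (b0 + κ * s)) ^ 2 - 4 * NL b0 D0 κ m s * κ ^ 2 ≤ 0) :
    Mid (fun s => f √(NL b0 D0 κ m s) |b0 + κ * s|) s := by
  set c := A1 b0 D0 κ m s with hc
  set a := √(NL b0 D0 κ m s) with ha
  have a0 : 0 < a := Real.sqrt_pos.2 hN
  have e0 : m + 2 * κ * (b0 + κ * s) = 2 * a * c := by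
    rw [hc, ha]; unfold A1; field_simp
  have eN : NL b0 D0 κ m s = a ^ 2 := (Real.sq_sqrt hN.le).symm
  have q : 0 ≤ κ ^ 2 - c ^ 2 := by
    rw [e0, eN] at hd
    have : 0 ≤ 4 * a ^ 2 * (κ ^ 2 - c ^ 2) := by linarith
    exact nonneg_of_mul_nonneg_right this (by positivity)
  have hl := h.line (a : ℝ) (b0 + κ * s : ℝ) ⟨c, √(κ ^ 2 - c ^ 2)⟩ (κ : ℝ) (by
    rw [norm_mk, Real.sq_sqrt q, Complex.norm_real, Real.norm_eq_abs, ← Real.sqrt_sq_eq_abs]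
    congr 1; ring)
  have e : ∀ r : ℝ, f ‖((a : ℝ) : ℂ) + r * (⟨c, √(κ ^ 2 - c ^ 2)⟩ : ℂ)‖
      ‖((b0 + κ * s : ℝ) : ℂ) + r * (κ : ℝ)‖ = f √(NL b0 D0 κ m (s + r)) |b0 + κ * (s + r)| := by
    intro r
    congr 1
    · have : ((a : ℝ) : ℂ) + r * (⟨c, √(κ ^ 2 - c ^ 2)⟩ : ℂ)
          = ⟨a + r * c, r * √(κ ^ 2 - c ^ 2)⟩ := by apply Complex.ext <;> simp
      rw [this, norm_mk, mul_pow, Real.sq_sqrt q]
      congr 1
      have : NL b0 D0 κ m (s + r) = NL b0 D0 κ m s + r * (m + 2 * κ * (b0 + κ * s))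
          + κ ^ 2 * r ^ 2 := by unfold NL; ring
      rw [this, e0, eN]
      ring
    · have : ((b0 + κ * s : ℝ) : ℂ) + r * (κ : ℝ) = ((b0 + κ * (s + r) : ℝ) : ℂ) := by
        push_cast; ring
      rw [this, Complex.norm_real, Real.norm_eq_abs]
  simp only [e] at hl
  refine Mid.of_le fun r => ?_
  have h1 := hl.2 (mem_univ r) (mem_univ (-r)) (by norm_num : (0 : ℝ) ≤ 1 / 2)
    (by norm_num : (0 : ℝ) ≤ 1 / 2) (by norm_num)
  have e1 : (1 / 2 : ℝ) • r + (1 / 2 : ℝ) • -r = 0 := by simp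
  rw [e1] at h1
  simp only [add_zero, smul_eq_mul, ← sub_eq_add_neg] at h1
  linarith

/-- The inequality of Baker and Ericksen for a tangent line. -/
theorem Hyp.be {p : ℝ} {f : ℝ → ℝ → ℝ} (h : Hyp p f) {α σ t : ℝ} (ht : t ∈ Ioo (-1 : ℝ) 1)
    (hs : ∀ s ∈ Icc (-1 : ℝ) 1, α + σ * s ≤ om f s) (he : α + σ * t = om f t) :
    0 ≤ p * α + (p - 2) * σ * t := by
  have h1 := hasDerivAt_Lam_base (p := p) (α := α) (σ := σ) (κ := -1) (m := 0) ht.1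
  have a0 : 0 < (1 + t) / 2 := by linarith [ht.1]
  have b0 : 0 < (1 - t) / 2 := by linarith [ht.2]
  have h2 := deriv_le_of_le (k := 0) h1 (by
    filter_upwards [Ioo_mem_nhdsGT (lt_min (half_pos (pow_pos a0 2)) b0)] with s hs'
    have s1 : s < ((1 + t) / 2) ^ 2 / 2 := hs'.2.trans_le (min_le_left _ _)
    have s2 : s < (1 - t) / 2 := hs'.2.trans_le (min_le_right _ _)
    have s0 : 0 < s := hs'.1
    have e1 : NL ((1 - t) / 2) t (-1) 0 s = t + ((1 - t) / 2 + -1 * s) ^ 2 := by unfold NL; ring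
    have e2 : t + ((1 - t) / 2) ^ 2 = ((1 + t) / 2) ^ 2 := by ring
    have hD : 0 ≤ t + ((1 - t) / 2 + -1 * s) ^ 2 := by
      nlinarith [mul_pos s0 a0, sq_nonneg s]
    have m1 := h.mono_b (D := t) (b := (1 - t) / 2) (b' := (1 - t) / 2 + -1 * s) (by linarith)
      (by linarith) hD
    have m2 := h.Lam_le hs (Real.sqrt_nonneg (t + ((1 - t) / 2 + -1 * s) ^ 2))
      (b := (1 - t) / 2 + -1 * s) (by linarith)
      (add_pos_of_nonneg_of_pos (Real.sqrt_nonneg _) (by linarith))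
    have e3 : (1 + t) / 2 + (1 - t) / 2 = 1 := by ring
    have e4 : (1 + t) / 2 - (1 - t) / 2 = t := by ring
    rw [e2, Real.sqrt_sq a0.le, ← om_eq f ht.1.le ht.2.le] at m1
    rw [e1, NL_zero, Real.sqrt_sq a0.le, mul_zero, add_zero, zero_mul, add_zero,
      Lam_eq p α σ (a := (1 + t) / 2) (by linarith), e3, e4, Real.one_rpow, div_one, one_mul, he]
    linarith)
  have h3 : 0 ≤ qS p α σ t := by linarith
  unfold qS at h3
  rwa [le_div_iff₀ (by linarith [ht.1]), zero_mul] at h3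

/-- Tangent lines at points to the left of the critical point are nonnegative there. -/
theorem Hyp.T_nonneg {p : ℝ} {f : ℝ → ℝ → ℝ} (h : Hyp p f) (hp : 1 ≤ p) {α σ t : ℝ}
    (ht : -1 < t) (ht1 : t ≤ 1) (ht2 : p * t ≤ 2 - p)
    (hs : ∀ s ∈ Icc (-1 : ℝ) 1, α + σ * s ≤ om f s) (he : α + σ * t = om f t) :
    0 ≤ p * α - (p - 2) * σ := by
  obtain ⟨K, hK⟩ := (isCompact_Icc (a := (-2 : ℝ)) (b := 2)).exists_bound_of_continuousOn
    h.continuous_om.continuousOn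
  have K0 : 0 ≤ K := (norm_nonneg _).trans (hK 0 (by norm_num))
  refine le_of_forall_pos_le_add fun ε hε => ?_
  set C := 2 * K * |p - 2| + 1 with hC
  have C0 : 0 < C := by positivity
  set η := min ((1 + t) / 2) (ε / C) with hη
  have η0 : 0 < η := lt_min (by linarith) (by positivity)
  have η1 : η ≤ (1 + t) / 2 := min_le_left _ _
  have η2 : η * C ≤ ε := by rw [← le_div_iff₀ C0]; exact min_le_right _ _
  obtain ⟨τ, hτ⟩ := exists_sub h.convexOn_om (-1 + η)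
  have b1 := h.be (α := om f (-1 + η) - τ * (-1 + η)) (σ := τ) (t := -1 + η)
    ⟨by linarith, by linarith⟩ (fun s _ => by linarith [hτ s]) (by ring)
  have b2 := hτ t
  have b3 := hs (-1 + η) ⟨by linarith, by linarith⟩
  have b4 : τ ≤ σ := by
    have : (τ - σ) * (t - (-1 + η)) ≤ 0 := by linarith
    have := nonpos_of_mul_nonpos_left this (by linarith)
    linarith
  have k1 := abs_le.1 (hK (-1 + η) ⟨by linarith, by linarith⟩)
  have k2 := abs_le.1 (hK (-1 + η + 1) ⟨by linarith, by linarith⟩)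
  have k3 := abs_le.1 (hK (-1 + η - 1) ⟨by linarith, by linarith⟩)
  have b5 : |τ| ≤ 2 * K := abs_le.2 ⟨by linarith [hτ (-1 + η - 1)], by linarith [hτ (-1 + η + 1)]⟩
  have b6 : (p - 2) * τ ≤ 2 * K * |p - 2| := by
    refine (le_abs_self _).trans ?_
    rw [abs_mul, mul_comm]
    exact mul_le_mul_of_nonneg_right b5 (abs_nonneg _)
  have b7 : 0 ≤ (σ - τ) * (2 - p - p * t) := mul_nonneg (by linarith) (by linarith)
  have b8 : 0 ≤ p * (om f t - (om f (-1 + η) + τ * (t - (-1 + η)))) :=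
    mul_nonneg (by linarith) (by linarith)
  have b9 : η * ((p - 2) * τ) ≤ η * C := mul_le_mul_of_nonneg_left (by linarith) η0.le
  rw [← he] at b8
  nlinarith

end Pool.Agent.MP_515557_an.H63
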