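import Pool.Agent.MP_515557_an.H63.Basic

/-! The profile cut by a tangent line through the critical point, and convexity of the resulting
function along segments in the coordinates `(b, D)`. -/

set_option autoImplicit false

open Set Filter Topology

namespace Pool.Agent.MP_515557_an.H63

/-- A tangent line of the profile, at `t1`, that vanishes at the critical point `(2 - p) / p`. -/
structure Cut (p : ℝ) (f : ℝ → ℝ → ℝ) (t1 γ : ℝ) : Prop where
  hyp : Hyp p f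
  hp : 1 < p
  lo : 2 - p ≤ p * t1
  hi : t1 < 1
  le : ∀ s ∈ Icc (-1 : ℝ) 1, γ * (p - 2) + γ * p * s ≤ om f s
  eq : γ * (p - 2) + γ * p * t1 = om f t1

theorem Hyp.exists_cut {p : ℝ} {f : ℝ → ℝ → ℝ} (h : Hyp p f) (hp : 1 < p) {α σ t : ℝ}
    (ht : t ∈ Ioo (-1 : ℝ) 1) (hs : ∀ s ∈ Icc (-1 : ℝ) 1, α + σ * s ≤ om f s)
    (he : α + σ * t = om f t) (hT : p * α - (p - 2) * σ < 0) :
    ∃ t1 γ, Cut p f t1 γ ∧ t1 ≤ t := by
  have p0 : 0 < p := by linarith
  set c := (2 - p) / p with hc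
  have ec : p * c = 2 - p := by rw [hc]; field_simp
  have c1 : -1 < c := by nlinarith
  have c2 : c < 1 := by nlinarith
  have ct : c < t := by
    by_contra hn
    have := h.T_nonneg hp.le ht.1 ht.2.le (by nlinarith) hs he
    linarith
  obtain ⟨τ, hτ⟩ := exists_sub h.convexOn_om c
  have w0 : 0 ≤ om f c := by
    have := h.T_nonneg hp.le (α := om f c - τ * c) (σ := τ) c1 c2.le ec.le
      (fun s _ => by linarith [hτ s]) (by ring)
    have e : p * (om f c - τ * c) - (p - 2) * τ = p * om f c := by linear_combination (-τ) * ec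
    rw [e] at this
    exact nonneg_of_mul_nonneg_right this p0
  have lin : ∀ μ s : ℝ, μ / p * (p - 2) + μ / p * p * s = μ * (s - c) := fun μ s => by
    rw [hc]; field_simp; ring
  rcases w0.lt_or_eq with w1 | w1
  swap
  · refine ⟨c, τ / p, ⟨h, hp, ec.ge, c2, fun s _ => ?_, ?_⟩, ct.le⟩
    · rw [lin]; linarith [hτ s]
    · rw [lin, ← w1]; ring
  set k := om f t / (t - c) with hk
  have e1 : ∀ᶠ s in 𝓝 c, 0 < om f s - k * (s - c) :=
    (h.continuous_om.sub (by fun_prop : Continuous fun s => k * (s - c))).continuousAt.eventually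
      (lt_mem_nhds (by simpa using w1))
  obtain ⟨δ, δ0, hδ⟩ := Metric.eventually_nhds_iff.1 e1
  set η := min (δ / 2) (t - c) with hη
  have η0 : 0 < η := lt_min (by linarith) (by linarith)
  have η1 : η ≤ δ / 2 := min_le_left _ _
  have η2 : η ≤ t - c := min_le_right _ _
  obtain ⟨t1, m1, hmin⟩ := (isCompact_Icc (a := c + η) (b := t)).exists_isMinOn
    (f := fun s => om f s / (s - c)) ⟨t, by linarith, le_rfl⟩
    (h.continuous_om.continuousOn.div (by fun_prop) fun s hs => by linarith [hs.1])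
  set μ := om f t1 / (t1 - c) with hμ
  have t1c : 0 < t1 - c := by linarith [m1.1]
  have eμ : μ * (t1 - c) = om f t1 := by rw [hμ]; field_simp
  have μk : μ ≤ k := hmin (show t ∈ Icc (c + η) t from ⟨by linarith, le_rfl⟩)
  have ek : k * (t - c) = om f t := by
    rw [hk]; exact div_mul_cancel₀ _ (by linarith)
  refine ⟨t1, μ / p, ⟨h, hp, by nlinarith, m1.2.trans_lt ht.2, fun s hs' => ?_, ?_⟩, m1.2⟩
  swap
  · rw [lin, eμ]
  rw [lin]
  rcases le_or_gt s c with s1 | s1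
  · rcases s1.lt_or_eq with s2 | rfl
    · have := h.convexOn_om.slope_mono_adjacent (mem_univ s) (mem_univ t1) s2 (by linarith)
      rw [div_le_div_iff₀ (by linarith) t1c, ← eμ] at this
      have h2 : (μ * (s - c)) * (t1 - c) ≤ om f s * (t1 - c) := by nlinarith
      exact le_of_mul_le_mul_right h2 t1c
    · simpa using w0
  rcases le_or_gt s (c + η) with s2 | s2
  · have := hδ (y := s) (by rw [Real.dist_eq, abs_of_pos (by linarith)]; linarith)
    nlinarith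
  rcases le_or_gt s t with s3 | s3
  · have : μ ≤ om f s / (s - c) := hmin (show s ∈ Icc (c + η) t from ⟨s2.le, s3⟩)
    rwa [le_div_iff₀ (by linarith)] at this
  · have a1 : α + σ * c < 0 := by
      have e : (α + σ * c) * p = p * α - (p - 2) * σ := by linear_combination σ * ec
      exact neg_of_mul_neg_left (e ▸ hT) p0.le
    have a2 : k < σ := by
      have : k * (t - c) < σ * (t - c) := by linarith
      exact lt_of_mul_lt_mul_right this (by linarith)
    have a3 := hs s hs'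
    nlinarith

/-- The excess of the profile over the tangent line, to the right of the contact point. -/
noncomputable def eT (p : ℝ) (f : ℝ → ℝ → ℝ) (t1 γ s : ℝ) : ℝ :=
  om f (max s t1) - (γ * (p - 2) + γ * p * max s t1)

/-- The cut function. -/
noncomputable def gT (p : ℝ) (f : ℝ → ℝ → ℝ) (t1 γ a b : ℝ) : ℝ :=
  Lam p (γ * (p - 2)) (γ * p) a b + (a + b) ^ p * eT p f t1 γ ((a - b) / (a + b))

namespace Cut

variable {p : ℝ} {f : ℝ → ℝ → ℝ} {t1 γ : ℝ}

theorem lo' (h : Cut p f t1 γ) : -1 < t1 := by nlinarith [h.lo, h.hp]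

theorem sign (h : Cut p f t1 γ) : 0 ≤ γ * (p - 2) := by
  have h1 := h.hyp.be ⟨h.lo', h.hi⟩ h.le h.eq
  have h2 : 0 ≤ γ * (p - 2) * (p * (1 + t1)) := by linarith
  exact nonneg_of_mul_nonneg_left h2 (mul_pos (by linarith [h.hp]) (by linarith [h.lo']))

theorem eT_nonneg (h : Cut p f t1 γ) {s : ℝ} (hs : s ≤ 1) : 0 ≤ eT p f t1 γ s :=
  sub_nonneg.2 (h.le _ ⟨h.lo'.le.trans (le_max_right _ _), max_le hs h.hi.le⟩)

theorem eT_zero (h : Cut p f t1 γ) {s : ℝ} (hs : s ≤ t1) : eT p f t1 γ s = 0 := by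
  rw [eT, max_eq_right hs, h.eq, sub_self]

theorem eT_mono (h : Cut p f t1 γ) {s s' : ℝ} (hs : s ≤ s') (h1 : s' ≤ 1) :
    eT p f t1 γ s ≤ eT p f t1 γ s' := by
  rcases le_or_gt s t1 with h2 | h2
  · rw [h.eT_zero h2]; exact h.eT_nonneg h1
  · have h3 := h.eT_nonneg (hs.trans h1)
    rcases hs.lt_or_eq with h4 | rfl
    swap
    · exact le_rfl
    have := h.hyp.convexOn_om.slope_mono_adjacent (mem_univ t1) (mem_univ s') h2 h4
    rw [div_le_div_iff₀ (by linarith) (by linarith), ← h.eq] at this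
    rw [eT, max_eq_left h2.le] at h3 ⊢
    rw [eT, max_eq_left (by linarith)]
    have h5 : (om f s - (γ * (p - 2) + γ * p * s)) * (s - t1)
        ≤ (om f s' - (γ * (p - 2) + γ * p * s')) * (s - t1) := by
      nlinarith [mul_nonneg h3 (sub_pos.2 h4).le]
    exact le_of_mul_le_mul_right h5 (by linarith)

theorem continuous_eT (h : Cut p f t1 γ) : Continuous (eT p f t1 γ) := by
  have := h.hyp.continuous_om
  unfold eT
  fun_prop

theorem B_le (h : Cut p f t1 γ) {a b : ℝ} (ha : 0 ≤ a) (hb : 0 ≤ b) (hx : 0 < a + b) :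
    Lam p (γ * (p - 2)) (γ * p) a b ≤ gT p f t1 γ a b :=
  le_add_of_nonneg_right
    (mul_nonneg (Real.rpow_pos_of_pos hx _).le (h.eT_nonneg (ratio_mem ha hb hx).2))

theorem gT_left (h : Cut p f t1 γ) {a b : ℝ} (ht : (a - b) / (a + b) ≤ t1) :
    gT p f t1 γ a b = Lam p (γ * (p - 2)) (γ * p) a b := by
  rw [gT, h.eT_zero ht, mul_zero, add_zero]

theorem gT_right (h : Cut p f t1 γ) {a b : ℝ} (ha : 0 ≤ a) (hb : 0 ≤ b) (hx : 0 < a + b)
    (ht : t1 ≤ (a - b) / (a + b)) : gT p f t1 γ a b = f a b := by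
  rw [gT, eT, max_eq_left ht, Lam_eq _ _ _ hx, h.hyp.eq_om ha hb hx]
  ring

theorem gT_le (h : Cut p f t1 γ) {a b : ℝ} (ha : 0 ≤ a) (hb : 0 ≤ b) (hx : 0 < a + b) :
    gT p f t1 γ a b ≤ f a b := by
  rcases le_total t1 ((a - b) / (a + b)) with ht | ht
  · exact (h.gT_right ha hb hx ht).le
  · rw [h.gT_left ht]; exact h.hyp.Lam_le h.le ha hb hx

theorem Lam_le_gT (h : Cut p f t1 γ) {α σ : ℝ}
    (hs : ∀ s ∈ Icc (-1 : ℝ) 1, α + σ * s ≤ om f s) (hσ : γ * p ≤ σ) {a b : ℝ} (ha : 0 ≤ a)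
    (hb : 0 ≤ b) (hx : 0 < a + b) : Lam p α σ a b ≤ gT p f t1 γ a b := by
  rcases le_total t1 ((a - b) / (a + b)) with ht | ht
  · rw [h.gT_right ha hb hx ht]; exact h.hyp.Lam_le hs ha hb hx
  · rw [h.gT_left ht, Lam_eq _ _ _ hx, Lam_eq _ _ _ hx]
    refine mul_le_mul_of_nonneg_left ?_ (Real.rpow_pos_of_pos hx _).le
    have h1 := hs t1 ⟨h.lo'.le, h.hi.le⟩
    rw [← h.eq] at h1
    nlinarith

theorem continuousOn_gT (h : Cut p f t1 γ) {X : Type} [TopologicalSpace X] {a b : X → ℝ}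
    {S : Set X} (ha : ContinuousOn a S) (hb : ContinuousOn b S) (hx : ∀ s ∈ S, 0 < a s + b s) :
    ContinuousOn (fun s => gT p f t1 γ (a s) (b s)) S := by
  have h1 : ∀ q : ℝ, ContinuousOn (fun s => (a s + b s) ^ q) S := fun q =>
    (ha.add hb).rpow_const fun s hs => Or.inl (hx s hs).ne'
  unfold gT Lam
  exact (((h1 p).const_mul _).add ((ha.sub hb).mul ((h1 _).const_mul _))).add ((h1 p).mul
    (h.continuous_eT.comp_continuousOn ((ha.sub hb).div (ha.add hb) fun s hs => (hx s hs).ne')))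

theorem mid_gT (h : Cut p f t1 γ) {b0 D0 κ m s : ℝ} (hN : 0 < NL b0 D0 κ m s)
    (hb : 0 < b0 + κ * s) : Mid (fun s => gT p f t1 γ √(NL b0 D0 κ m s) (b0 + κ * s)) s := by
  have a0 : 0 < √(NL b0 D0 κ m s) := Real.sqrt_pos.2 hN
  have hx : 0 < √(NL b0 D0 κ m s) + (b0 + κ * s) := by linarith
  have cb : ContinuousAt (fun s => b0 + κ * s) s := by fun_prop
  have ca : ContinuousAt (fun s => √(NL b0 D0 κ m s)) s :=
    (continuous_NL b0 D0 κ m).sqrt.continuousAt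
  have e2 : ∀ᶠ r in 𝓝 s, 0 < b0 + κ * r := cb.eventually (lt_mem_nhds hb)
  set t := (√(NL b0 D0 κ m s) - (b0 + κ * s)) / (√(NL b0 D0 κ m s) + (b0 + κ * s)) with ht
  have tm : t ∈ Ioo (-1 : ℝ) 1 := ratio_mem' a0 hb
  have et : √(NL b0 D0 κ m s) - (b0 + κ * s) = t * (√(NL b0 D0 κ m s) + (b0 + κ * s)) := by
    rw [ht]; field_simp
  rcases le_or_gt t t1 with h1 | h1
  · refine (mid_Lam (α := γ * (p - 2)) (σ := γ * p) h.hp.le hN hb ?_ (le_of_eq (by ring))).mono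
      (h.gT_left h1).symm ?_
    · have := mul_nonneg (mul_nonneg h.sign (by linarith [h.hp] : 0 ≤ p)) a0.le
      linarith
    · filter_upwards [e2] with r hr
      exact h.B_le (Real.sqrt_nonneg _) hr.le (add_pos_of_nonneg_of_pos (Real.sqrt_nonneg _) hr)
  rcases le_total 0 ((m + 2 * κ * (b0 + κ * s)) ^ 2 - 4 * NL b0 D0 κ m s * κ ^ 2) with hd | hd
  · obtain ⟨σ, hσ⟩ := exists_sub h.hyp.convexOn_om t
    have hs : ∀ r ∈ Icc (-1 : ℝ) 1, om f t - σ * t + σ * r ≤ om f r :=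
      fun r _ => by linarith [hσ r]
    have k1 := hσ t1
    have k2 := h.le t ⟨tm.1.le, tm.2.le⟩
    rw [← h.eq] at k1
    have k3 : γ * p ≤ σ := by
      have : γ * p * (t - t1) ≤ σ * (t - t1) := by linarith
      exact le_of_mul_le_mul_right this (by linarith)
    have k4 := h.hyp.be tm hs (by ring)
    refine (mid_Lam (α := om f t - σ * t) (σ := σ) h.hp.le hN hb ?_ ?_).mono ?_ ?_
    · rw [et]
      nlinarith [mul_nonneg k4 hx.le]
    · refine mul_nonpos_of_nonpos_of_nonneg ?_ hd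
      have p0 : 0 ≤ p := by linarith [h.hp]
      nlinarith [mul_nonneg (sub_nonneg.2 k3) (sub_nonneg.2 h.lo), mul_le_mul_of_nonneg_left k1 p0]
    · rw [h.gT_right a0.le hb.le hx h1.le, Lam_eq _ _ _ hx, h.hyp.eq_om a0.le hb.le hx, ← ht]
      ring
    · filter_upwards [e2] with r hr
      exact h.Lam_le_gT hs k3 (Real.sqrt_nonneg _) hr.le
        (add_pos_of_nonneg_of_pos (Real.sqrt_nonneg _) hr)
  · refine (h.hyp.mid_I hN hd).mono ?_ ?_
    · rw [h.gT_right a0.le hb.le hx h1.le, abs_of_pos hb]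
    · have e3 := ((ca.sub cb).div (ca.add cb) hx.ne').eventually (lt_mem_nhds h1)
      filter_upwards [e2, e3] with r hr h3
      rw [h.gT_right (Real.sqrt_nonneg _) hr.le
        (add_pos_of_nonneg_of_pos (Real.sqrt_nonneg _) hr) h3.le, abs_of_pos hr]

/-- The chord inequality along segments that start in the middle of a strip. -/
theorem seg (h : Cut p f t1 γ) {a1 b1 a2 b2 : ℝ} (hb1 : 0 < b1) (hb2 : 0 < b2) (ha2 : 0 ≤ a2)
    (hκ : |b2 - b1| < a1) {s : ℝ} (hs : s ∈ Icc (0 : ℝ) 1) :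
    gT p f t1 γ √(NL b1 (a1 ^ 2 - b1 ^ 2) (b2 - b1) (a2 ^ 2 - b2 ^ 2 - (a1 ^ 2 - b1 ^ 2)) s)
      (b1 + (b2 - b1) * s) ≤ (1 - s) * gT p f t1 γ a1 b1 + s * gT p f t1 γ a2 b2 := by
  have hb : ∀ r ∈ Icc (0 : ℝ) 1, 0 < b1 + (b2 - b1) * r := fun r hr => by
    rcases le_total b1 b2 with k | k <;> nlinarith [hr.1, hr.2]
  have a0 : 0 < a1 := (abs_nonneg _).trans_lt hκ
  have h1 := chord_of_mid (u := fun s => gT p f t1 γ
    √(NL b1 (a1 ^ 2 - b1 ^ 2) (b2 - b1) (a2 ^ 2 - b2 ^ 2 - (a1 ^ 2 - b1 ^ 2)) s)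
      (b1 + (b2 - b1) * s)) (h.continuousOn_gT (continuous_NL _ _ _ _).sqrt.continuousOn
        (by fun_prop) fun r hr => add_pos_of_nonneg_of_pos (Real.sqrt_nonneg _) (hb r hr))
    (fun r hr => h.mid_gT ?_ (hb r (Ioo_subset_Icc_self hr))) s hs
  · have e0 : NL b1 (a1 ^ 2 - b1 ^ 2) (b2 - b1) (a2 ^ 2 - b2 ^ 2 - (a1 ^ 2 - b1 ^ 2)) 0
        = a1 ^ 2 := by unfold NL; ring
    have e1 : NL b1 (a1 ^ 2 - b1 ^ 2) (b2 - b1) (a2 ^ 2 - b2 ^ 2 - (a1 ^ 2 - b1 ^ 2)) 1
        = a2 ^ 2 := by unfold NL; ring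
    simp only [e0, e1, Real.sqrt_sq a0.le, Real.sqrt_sq ha2, mul_zero, add_zero, mul_one,
      add_sub_cancel] at h1
    exact h1
  · have e : NL b1 (a1 ^ 2 - b1 ^ 2) (b2 - b1) (a2 ^ 2 - b2 ^ 2 - (a1 ^ 2 - b1 ^ 2)) r
        = (1 - r) * (a1 ^ 2 - (b2 - b1) ^ 2 * r) + r * a2 ^ 2 := by unfold NL; ring
    have k : (b2 - b1) ^ 2 < a1 ^ 2 := sq_lt_sq' (abs_lt.1 hκ).1 (abs_lt.1 hκ).2
    have k2 : (b2 - b1) ^ 2 * r ≤ (b2 - b1) ^ 2 :=
      mul_le_of_le_one_right (sq_nonneg _) hr.2.le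
    rw [e]
    exact add_pos_of_pos_of_nonneg (mul_pos (by linarith [hr.2]) (by linarith))
      (mul_nonneg hr.1.le (sq_nonneg _))

end Cut

end Pool.Agent.MP_515557_an.H63
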