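import Pool.Agent.MP_515557_an.H63.Schwarz

/-! Derivatives of homogeneous tangent functions along straight lines in the coordinates
`(b, D)`, where `D = a ^ 2 - b ^ 2`. -/

set_option autoImplicit false

open Set Filter Topology

namespace Pool.Agent.MP_515557_an.H63

/-- The homogeneous function attached to an affine profile. -/
noncomputable def Lam (p α σ a b : ℝ) : ℝ := α * (a + b) ^ p + (a - b) * (σ * (a + b) ^ (p - 1))

/-- Its derivative in the direction `(a', κ)`. -/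
noncomputable def Lam1 (p α σ a b a' κ : ℝ) : ℝ :=
  α * ((a' + κ) * p * (a + b) ^ (p - 1)) + ((a' - κ) * (σ * (a + b) ^ (p - 1))
    + (a - b) * (σ * ((a' + κ) * (p - 1) * (a + b) ^ (p - 1 - 1))))

/-- The square of the first modulus along a line. -/
def NL (b0 D0 κ m s : ℝ) : ℝ := D0 + m * s + (b0 + κ * s) ^ 2

/-- The derivative of the first modulus along a line. -/
noncomputable def A1 (b0 D0 κ m s : ℝ) : ℝ := (m + 2 * κ * (b0 + κ * s)) / (2 * √(NL b0 D0 κ m s))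

theorem continuous_NL (b0 D0 κ m : ℝ) : Continuous (NL b0 D0 κ m) := by
  unfold NL; fun_prop

theorem hasDerivAt_b (b0 κ s : ℝ) : HasDerivAt (fun s : ℝ => b0 + κ * s) κ s := by
  simpa using ((hasDerivAt_id s).const_mul κ).const_add b0

theorem hasDerivAt_a {b0 D0 κ m s : ℝ} (h : 0 < NL b0 D0 κ m s) :
    HasDerivAt (fun s => √(NL b0 D0 κ m s)) (A1 b0 D0 κ m s) s := by
  have h1 : HasDerivAt (NL b0 D0 κ m) (m + 2 * κ * (b0 + κ * s)) s := by
    have := (hasDerivAt_b D0 m s).add ((hasDerivAt_b b0 κ s).pow 2)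
    refine HasDerivAt.congr_deriv this ?_
    simp; ring
  exact h1.sqrt h.ne'

theorem hasDerivAt_A1 {b0 D0 κ m s : ℝ} (h : 0 < NL b0 D0 κ m s) :
    HasDerivAt (A1 b0 D0 κ m) ((κ ^ 2 - A1 b0 D0 κ m s ^ 2) / √(NL b0 D0 κ m s)) s := by
  have a0 : 0 < √(NL b0 D0 κ m s) := Real.sqrt_pos.2 h
  have h1 := (((hasDerivAt_b b0 κ s).const_mul (2 * κ)).const_add m).div
    ((hasDerivAt_a h).const_mul 2) (by positivity)
  refine HasDerivAt.congr_deriv h1 ?_
  unfold A1
  field_simp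

theorem hasDerivAt_Lam {p α σ : ℝ} {a b : ℝ → ℝ} {a' κ s : ℝ} (ha : HasDerivAt a a' s)
    (hb : HasDerivAt b κ s) (hx : 0 < a s + b s) :
    HasDerivAt (fun s => Lam p α σ (a s) (b s)) (Lam1 p α σ (a s) (b s) a' κ) s := by
  have h1 := (ha.add hb).rpow_const (p := p) (Or.inl hx.ne')
  have h2 := (ha.add hb).rpow_const (p := p - 1) (Or.inl hx.ne')
  exact (h1.const_mul α).add ((ha.sub hb).mul (h2.const_mul σ))

theorem mid_Lam {p α σ b0 D0 κ m s : ℝ} (hp : 1 ≤ p) (hN : 0 < NL b0 D0 κ m s)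
    (hb : 0 < b0 + κ * s)
    (hq : 0 ≤ p * α * (√(NL b0 D0 κ m s) + (b0 + κ * s))
      + (p - 2) * σ * (√(NL b0 D0 κ m s) - (b0 + κ * s)))
    (hT : (p * α - (p - 2) * σ) * ((m + 2 * κ * (b0 + κ * s)) ^ 2 - 4 * NL b0 D0 κ m s * κ ^ 2)
      ≤ 0) :
    Mid (fun s => Lam p α σ √(NL b0 D0 κ m s) (b0 + κ * s)) s := by
  have a0 : 0 < √(NL b0 D0 κ m s) := Real.sqrt_pos.2 hN
  have hx : 0 < √(NL b0 D0 κ m s) + (b0 + κ * s) := by linarith
  have ha := hasDerivAt_a hN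
  have hb' := hasDerivAt_b b0 κ s
  have hA := hasDerivAt_A1 hN
  have h2 := (ha.add hb').rpow_const (p := p - 1) (Or.inl hx.ne')
  have h3 := (ha.add hb').rpow_const (p := p - 1 - 1) (Or.inl hx.ne')
  have h4 := ((((hA.add_const κ).mul_const p).mul h2).const_mul α).add
    (((hA.sub_const κ).mul (h2.const_mul σ)).add
      ((ha.sub hb').mul ((((hA.add_const κ).mul_const (p - 1)).mul h3).const_mul σ)))
  refine mid_of_deriv (φ' := fun s => Lam1 p α σ √(NL b0 D0 κ m s) (b0 + κ * s)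
    (A1 b0 D0 κ m s) κ) ?_ h4 ?_
  · have e1 : ∀ᶠ r in 𝓝 s, 0 < NL b0 D0 κ m r :=
      (continuous_NL b0 D0 κ m).continuousAt.eventually (lt_mem_nhds hN)
    have e2 : ∀ᶠ r in 𝓝 s, 0 < b0 + κ * r := hb'.continuousAt.eventually (lt_mem_nhds hb)
    filter_upwards [e1, e2] with r r1 r2
    exact hasDerivAt_Lam (hasDerivAt_a r1) (hasDerivAt_b b0 κ r)
      (add_pos (Real.sqrt_pos.2 r1) r2)
  · simp only [Pi.add_apply, Pi.sub_apply, Pi.mul_apply]
    clear h2 h3 h4 ha hA hb'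
    have e0 : m + 2 * κ * (b0 + κ * s) = 2 * √(NL b0 D0 κ m s) * A1 b0 D0 κ m s := by
      unfold A1; field_simp
    have eN : NL b0 D0 κ m s = √(NL b0 D0 κ m s) ^ 2 := (Real.sq_sqrt hN.le).symm
    rw [e0] at hT
    generalize A1 b0 D0 κ m s = c at *
    generalize √(NL b0 D0 κ m s) = a at *
    generalize b0 + κ * s = b at *
    rw [eN] at hT
    have e1 : (a + b) ^ (p - 1 - 1) = (a + b) ^ (p - 1 - 1 - 1) * (a + b) := by
      rw [← Real.rpow_add_one hx.ne']; congr 1; ring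
    have e2 : (a + b) ^ (p - 1) = (a + b) ^ (p - 1 - 1) * (a + b) := by
      rw [← Real.rpow_add_one hx.ne']; congr 1; ring
    have X0 : 0 < (a + b) ^ (p - 1 - 1 - 1) := Real.rpow_pos_of_pos hx _
    rw [e2, e1]
    generalize (a + b) ^ (p - 1 - 1 - 1) = X at *
    have hT' : (p * α - (p - 2) * σ) * (c ^ 2 - κ ^ 2) ≤ 0 := by
      have : 4 * a ^ 2 * ((p * α - (p - 2) * σ) * (c ^ 2 - κ ^ 2)) ≤ 0 := by linarith
      exact nonpos_of_mul_nonpos_right this (by positivity)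
    have t1 : 0 ≤ (p - 1) * X * (c + κ) ^ 2 * (p * α * (a + b) + (p - 2) * σ * (a - b)) :=
      mul_nonneg (mul_nonneg (mul_nonneg (by linarith) X0.le) (sq_nonneg _)) hq
    have t2 : 0 ≤ X * (a + b) ^ 2 / a * (-((p * α - (p - 2) * σ) * (c ^ 2 - κ ^ 2))) :=
      mul_nonneg (by positivity) (by linarith)
    refine le_of_le_of_eq (add_nonneg t1 t2) ?_
    field_simp
    ring

/-- The slope in `D` of the tangent plane at the point with `a + b = 1`, `a - b = t`. -/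
noncomputable def dS (p α σ t : ℝ) : ℝ := (p * α + ((p - 1) * t + 1) * σ) / (1 + t)

/-- Half the slope in `b` of the tangent plane at the point with `a + b = 1`, `a - b = t`. -/
noncomputable def qS (p α σ t : ℝ) : ℝ := (p * α + (p - 2) * σ * t) / (1 + t)

theorem NL_zero (t κ m : ℝ) : NL ((1 - t) / 2) t κ m 0 = ((1 + t) / 2) ^ 2 := by
  unfold NL; ring

theorem hasDerivAt_Lam_base {p α σ t κ m : ℝ} (h1 : -1 < t) :
    HasDerivAt (fun s => Lam p α σ √(NL ((1 - t) / 2) t κ m s) ((1 - t) / 2 + κ * s))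
      (dS p α σ t * m + 2 * qS p α σ t * κ) 0 := by
  have h2 : 0 < (1 + t) / 2 := by linarith
  have e : √(NL ((1 - t) / 2) t κ m 0) = (1 + t) / 2 := by rw [NL_zero, Real.sqrt_sq h2.le]
  have hN : 0 < NL ((1 - t) / 2) t κ m 0 := by rw [NL_zero]; positivity
  have h := hasDerivAt_Lam (p := p) (α := α) (σ := σ) (hasDerivAt_a hN)
    (hasDerivAt_b ((1 - t) / 2) κ 0) (by rw [e]; linarith)
  refine h.congr_deriv ?_
  have e1 : (1 + t) / 2 + ((1 - t) / 2 + κ * 0) = 1 := by ring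
  have h3 : 1 + t ≠ 0 := by linarith
  unfold Lam1 A1 dS qS
  rw [e, e1]
  simp only [Real.one_rpow]
  field_simp
  ring

end Pool.Agent.MP_515557_an.H63
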